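import Pool.Agent.MP_20b2fd_nt.H75.SpecE

/-! Multiplicativity and values at primes of the arithmetic factors. -/

set_option autoImplicit false

namespace Pool.Agent.MP_20b2fd_nt.H75

open MeasureTheory Complex Finset
open Pool.Agent.MP_20b2fd_nt.H38 Pool.Agent.MP_20b2fd_nt.H39 Pool.Agent.MP_20b2fd_nt.F5
open Pool.Agent.MP_c5bf7b_nt.H38 (Ch SiegS)
open DirichletCharacter (LFunction)
open scoped Real

namespace ApE

open ArithmeticFunction

/-- convolution -/
noncomputable def cv (f g : ℕ → ℂ) (n : ℕ) : ℂ := ∑ x ∈ n.divisorsAntidiagonal, f x.1 * g x.2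

/-- the arithmetic function with the same values -/
noncomputable def af (f : ℕ → ℂ) : ArithmeticFunction ℂ :=
  ⟨fun n => if n = 0 then 0 else f n, if_pos rfl⟩

theorem af_mu {f : ℕ → ℂ} (h : Mu f) : (af f).IsMultiplicative := by
  refine ⟨by simp [af, h.1], fun {m n} e => ?_⟩
  by_cases a : m = 0
  · simp [a]
  by_cases b : n = 0
  · simp [b]
  simp [af, a, b, h.2 m n e]

theorem mu_cv {f g : ℕ → ℂ} (hf : Mu f) (hg : Mu g) : Mu (cv f g) := by
  have e : ∀ n, cv f g n = (af f * af g) n := fun n => by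
    rw [mul_apply]
    refine sum_congr rfl fun x hx => ?_
    simp [af, Nat.left_ne_zero_of_mem_divisorsAntidiagonal hx,
      Nat.right_ne_zero_of_mem_divisorsAntidiagonal hx]
  have h := (af_mu hf).mul (af_mu hg)
  exact ⟨(e 1).trans h.1, fun m n c => by rw [e, e, e, h.2 c]⟩

theorem cv_p {f g : ℕ → ℂ} (hf : Mu f) (hg : Mu g) {p : ℕ} (hp : p.Prime) :
    cv f g p = f p + g p ∧ cv f g (p ^ 2) = f (p ^ 2) + f p * g p + g (p ^ 2) := by
  unfold cv
  rw [Nat.sum_divisorsAntidiagonal fun a b => f a * g b,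
    Nat.sum_divisorsAntidiagonal fun a b => f a * g b, hp.sum_divisors,
    Nat.sum_divisors_prime_pow hp, sum_range_succ, sum_range_succ, sum_range_one,
    Nat.div_self hp.pos, Nat.div_self (pow_pos hp.pos 2), pow_zero, pow_one, Nat.div_one,
    Nat.div_one, sq p, Nat.mul_div_cancel _ hp.pos, hf.1, hg.1]
  exact ⟨by ring, by ring⟩

theorem mu_mul {f g : ℕ → ℂ} (hf : Mu f) (hg : Mu g) : Mu fun n => f n * g n :=
  ⟨by simp only [hf.1, hg.1, mul_one], fun m n c => by simp only [hf.2 m n c, hg.2 m n c]; ring⟩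

theorem mu_pow (s : ℂ) : Mu fun n => (n : ℂ) ^ s :=
  ⟨by simp, fun m n _ => by simp only [Nat.cast_mul, natCast_mul_natCast_cpow]⟩

theorem mu_chi {D : ℕ} (χ : Ch D) : Mu fun n => χ n :=
  ⟨by simp, fun m n _ => by simp only [Nat.cast_mul, map_mul]⟩

theorem mu_moe : Mu fun n => (moebius n : ℂ) :=
  ⟨by simp, fun m n c => by simp only [isMultiplicative_moebius.2 c, Int.cast_mul]⟩

theorem mu_tau : Mu fun n => ((tau n : ℝ) : ℂ) :=
  ⟨by simp [tau], fun m n c => by simp only [tau, c.card_divisors_mul]; push_cast; rfl⟩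

end ApE

open ApE ArithmeticFunction in
theorem apS : ApS := by
  intro D χ u
  have m1 := mu_mul (mu_chi χ) (mu_pow (-u))
  refine ⟨fun w => ?_, ?_, fun p hp => by rw [hp.sum_divisors, add_comm]; simp⟩
  · have m2 := mu_mul (mu_mul mu_moe (mu_chi χ)) (mu_pow (-1 - u - 2 * w))
    have m3 := mu_mul mu_tau (mu_pow (-w))
    refine ⟨mu_cv m1 (mu_cv m2 m3), fun p hp => ?_⟩
    obtain ⟨a1, a2⟩ := cv_p m1 (mu_cv m2 m3) hp
    obtain ⟨b1, b2⟩ := cv_p m2 m3 hp
    have p0 : (p : ℂ) ≠ 0 := Nat.cast_ne_zero.2 hp.ne_zero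
    have e1 : (p : ℂ) ^ (-1 - u - 2 * w) = (p : ℂ)⁻¹ * p ^ (-u) * p ^ (-w) * p ^ (-w) := by
      rw [← cpow_neg_one, ← cpow_add _ _ p0, ← cpow_add _ _ p0, ← cpow_add _ _ p0]
      congr 1
      ring
    have e2 : ∀ s : ℂ, ((p ^ 2 : ℕ) : ℂ) ^ s = ((p : ℂ) ^ s) ^ 2 := fun s => by
      rw [sq, sq, Nat.cast_mul, natCast_mul_natCast_cpow]
    have t1 : ((tau p : ℝ) : ℂ) = 2 := by
      rw [tau, hp.divisors, card_pair hp.one_lt.ne]
      norm_num
    have t2 : ((tau (p ^ 2) : ℝ) : ℂ) = 3 := by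
      rw [tau, Nat.divisors_prime_pow hp, card_map, card_range]
      norm_num
    rw [b1] at a1 a2
    rw [b2] at a2
    simp only [moebius_apply_prime hp, moebius_apply_prime_pow hp two_ne_zero, e1, e2, t1,
      t2] at a1 a2
    refine ⟨a1.trans ?_, a2.trans ?_⟩
    · unfold ap1
      push_cast
      ring
    · unfold ap2
      push_cast
      rw [map_pow]
      ring
  · have h := mu_cv m1 (g := fun _ => 1) ⟨rfl, fun _ _ _ => (mul_one _).symm⟩
    have e : ∀ l, cv (fun n => χ n * (n : ℂ) ^ (-u)) (fun _ => 1) l =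
        ∑ d ∈ l.divisors, χ d * (d : ℂ) ^ (-u) := fun l => by
      rw [cv, Nat.sum_divisorsAntidiagonal fun a _ => χ a * (a : ℂ) ^ (-u) * 1]
      simp only [mul_one]
    rwa [funext e] at h

end Pool.Agent.MP_20b2fd_nt.H75
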