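import Pool.Agent.MP_20b2fd_nt.H75.SpecE
import Pool.Agent.MP_20b2fd_nt.H20.Xk

/-! The three moments put together. -/

set_option autoImplicit false

namespace Pool.Agent.MP_20b2fd_nt.H75

open Complex Finset
open Pool.Agent.MP_20b2fd_nt.H38 Pool.Agent.MP_20b2fd_nt.H39 Pool.Agent.MP_20b2fd_nt.F5
open scoped Real

namespace GE

theorem re_le {x e : ℝ} {w : ℂ} (h : ‖(x : ℂ) - w‖ ≤ e) : |x - w.re| ≤ e := by
  have := (abs_re_le_norm _).trans h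
  rwa [sub_re, ofReal_re] at this

end GE

theorem gOf : GOf := by
  rintro hF hX ⟨CF, θ₀, CF1, θ0, hFF⟩ hM hY ⟨c, C, c0, c1, C1, hP⟩ C₀ c₀ - ⟨C', C'1, hc⟩
  obtain ⟨g, K₁, g0, K1, hM⟩ := hM C₀ c C c0 c1 C1
  obtain ⟨K₂, ρ₂, K2, ρ2, hY⟩ := hY C₀ c C c0 c1 C1
  have K3 : 1 ≤ CF * K₂ := one_le_mul_of_one_le_of_one_le CF1 K2
  refine ⟨g / 2, 2 * (K₁ + CF * K₂ + 1), by linarith, by linarith, fun ε ε0 ε1 => ?_⟩
  obtain ⟨ρ₁, N₁, ρ1, hM⟩ := hM ε ε0 (by linarith)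
  obtain ⟨θ, t0, t1, t2⟩ : ∃ θ : ℝ, 0 < θ ∧ θ ≤ θ₀ ∧ θ ≤ ε / 2000 :=
    ⟨min θ₀ (ε / 2000), by positivity, min_le_left _ _, min_le_right _ _⟩
  obtain ⟨ρ, r0, r1, r2, r3⟩ : ∃ ρ : ℝ, 0 < ρ ∧ ρ ≤ ρ₁ ∧ ρ ≤ ρ₂ ∧ ρ ≤ 1 / 10 :=
    ⟨min ρ₁ (min ρ₂ (1 / 10)), by positivity, min_le_left _ _,
      (min_le_right _ _).trans (min_le_left _ _), (min_le_right _ _).trans (min_le_right _ _)⟩
  obtain ⟨κ, k0, k1, N₂, hP⟩ := hP C₀ θ ρ t0 (by linarith) r0 r3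
  obtain ⟨N₃, hY⟩ := hY θ t0
  obtain ⟨N₄, hFF⟩ := hFF θ C' t0 t1 C'1
  obtain ⟨N₅, hX⟩ := hX ε 1 0 ε0 (by linarith) le_rfl
  obtain ⟨N₆, hF⟩ := hF ε θ (25 * θ) g (K₁ + CF * K₂ + 1) t0 (by linarith) (by linarith) g0
    (by linarith)
  refine ⟨θ, 200 * θ, κ, t0, by linarith, by linarith, by linarith, k0, by linarith,
    N₁ + N₂ + N₃ + N₄ + N₅ + N₆, fun N D _ χ β hN hp hQ hZ => ?_⟩
  have n1 : (1 : ℝ) ≤ N := Nat.one_le_cast.2 hp.pos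
  obtain ⟨z, F, Λ, hS, p1, p2, p3, p4⟩ := hP N D χ β (by omega) hQ hZ
  obtain ⟨m1, m2⟩ := hM N D χ β z F Λ ρ _ (by omega) r1 hS
  obtain ⟨ι, J, ν, l, L₁, B, y1, y2, y3⟩ := hY N D χ β z F Λ ρ _ (by omega) r2 hS p1
  obtain ⟨f1, f2, f3⟩ := hFF N D χ (c₀ ((N : ℝ) ^ (200 * θ))) (by omega) hp
    ⟨hQ.1, hQ.2.1, hQ.2.2.1, hQ.2.2.2.trans (Real.rpow_le_rpow_of_exponent_le n1 k1)⟩
    (hc _ (Real.one_le_rpow n1 (by linarith)))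
  obtain ⟨x1, x2, x3⟩ := hX N (by omega)
  have e : -(25 * θ) = -25 * θ := by ring
  have y0p : 0 < y0 χ β z F (jj χ N) := lt_of_lt_of_le (by positivity) p4
  refine hF N D χ _ _ _ 1 0 _ _ _ _ (fun l => (R1 χ (jj χ N) (Qc D N) l).re)
    (fun n => (Rn χ (jj χ N) (LN N) (Qc D N) n).re)
    (TY χ θ N (TY χ θ N (ell ((N : ℝ) ^ (200 * θ)) (c₀ ((N : ℝ) ^ (200 * θ))) N))) (by omega) x1 x2
    x3 ⟨fun l l1 l2 => ⟨e ▸ GE.re_le (f1 l l1 l2), ?_⟩, fun n a1 a2 => e ▸ GE.re_le (f2 n a1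
      (a2.trans (Real.rpow_le_rpow_of_exponent_le n1 (by linarith))))⟩
    ⟨Mz Λ, nu χ z Λ, y0 χ β z F (jj χ N), p1, p2, p3, p4,
      m1.trans (mul_le_mul_of_nonneg_right (by linarith) y0p.le), ?_, ?_⟩
  · rw [sub_self, abs_zero]
    positivity
  · have b1 := (le_abs_self _).trans (f3 ι J ν l L₁ B y1)
    have b2 : (N : ℝ) ^ (-15 * θ) ≤ y0 χ β z F (jj χ N) ^ 2 := by
      refine le_trans ?_ (pow_le_pow_left₀ (by positivity) p4 2)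
      rw [← Real.rpow_natCast, ← Real.rpow_mul (by linarith)]
      exact Real.rpow_le_rpow_of_exponent_le n1 (by push_cast; linarith)
    have b3 := mul_le_mul_of_nonneg_left y3 (zero_le_one.trans CF1)
    have b4 := mul_le_mul_of_nonneg_right K1 (sq_nonneg (y0 χ β z F (jj χ N)))
    have b5 := sq_nonneg (y0 χ β z F (jj χ N))
    rw [y2]
    linarith
  · rwa [H20.jx_eq, H20.ax_eq, H20.xx_eq ε0 (by linarith)] at m2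

end Pool.Agent.MP_20b2fd_nt.H75
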