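import Pool.Agent.MP_20b2fd_nt.H75.SpecE

/-! Simple fractions under a Fourier average. -/

set_option autoImplicit false

namespace Pool.Agent.MP_20b2fd_nt.H75

open MeasureTheory Complex Finset
open Pool.Agent.MP_20b2fd_nt.H38 Pool.Agent.MP_20b2fd_nt.H39 Pool.Agent.MP_20b2fd_nt.F5
open scoped Real

namespace JmE

theorem re_sub (Λ ξ : ℝ) (α : ℂ) : (α - ex Λ (-1) ξ).re = α.re - -1 / Λ := by
  simp [ex, div_ofReal_re]

theorem frac {Λ : ℝ} {α : ℂ} (h : -1 / Λ < α.re) :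
    (∀ ξ, α - ex Λ (-1) ξ ≠ 0) ∧ Continuous (fun ξ => 1 / (α - ex Λ (-1) ξ)) ∧
      ∀ ξ, ‖1 / (α - ex Λ (-1) ξ)‖ ≤ 1 / (α.re - -1 / Λ) := by
  have h1 : ∀ ξ, α - ex Λ (-1) ξ ≠ 0 := fun ξ e => by
    have := re_sub Λ ξ α
    rw [e, zero_re] at this
    linarith
  refine ⟨h1, Continuous.div continuous_const ?_ h1, fun ξ => ?_⟩
  · unfold ex
    fun_prop
  · rw [norm_div, norm_one]
    refine one_div_le_one_div_of_le (by linarith) ?_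
    rw [← re_sub Λ ξ α]
    exact re_le_norm _

end JmE

open JmE in
theorem jmOf : JmOf := by
  intro hA hJ hF ε N α h0 h1 hN hα
  have hL : 0 < Real.log N := Real.log_pos (by exact_mod_cast hN)
  have hΛ : 0 < Lx ε N := mul_pos (by linarith) hL
  have hB := (hF.1 ε h0 (by linarith)).1
  have a0 : -1 / Lx ε N < (0 : ℂ).re := div_neg_of_neg_of_pos (by norm_num) hΛ
  have a1 : -1 / Lx ε N < α.re := by
    rw [div_lt_iff₀ hΛ]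
    unfold Lx at hΛ ⊢
    rcases le_or_gt 0 α.re with z | z
    · nlinarith [mul_nonneg z hΛ.le]
    · nlinarith [mul_pos (neg_pos.2 z) hL]
  obtain ⟨n0, c0, b0⟩ := frac a0
  obtain ⟨n1, c1, b1⟩ := frac a1
  obtain ⟨i0, v0⟩ := hJ (f1 ε) 2 (-1) (Lx ε N) 0 hB hΛ a0
  obtain ⟨i1, v1⟩ := hJ (f1 ε) 2 (-1) (Lx ε N) α hB hΛ a1
  obtain ⟨-, hl, -, hb⟩ := hA (f1 ε) 2 (-1) hB
  obtain ⟨C, -, hC⟩ := hb 0
  have p0 : 0 ≤ 1 / ((0 : ℂ).re - -1 / Lx ε N) := (norm_nonneg _).trans (b0 0)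
  have i2 : AvI (f1 ε) (-1) fun ξ => 1 / (0 - ex (Lx ε N) (-1) ξ) * (1 / (α - ex (Lx ε N) (-1) ξ)) :=
    (hC _ _ fun ξ => by
      rw [pow_zero, mul_one, norm_mul]
      exact mul_le_mul (b0 ξ) (b1 ξ) (norm_nonneg _) p0).2.1 (c0.mul c1)
  have i3 : AvI (f1 ε) (-1) fun ξ => 1 / (0 - ex (Lx ε N) (-1) ξ) *
      (1 / (0 - ex (Lx ε N) (-1) ξ) * (1 / (α - ex (Lx ε N) (-1) ξ))) :=
    (hC _ _ fun ξ => by
      rw [pow_zero, mul_one, norm_mul, norm_mul]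
      exact mul_le_mul (b0 ξ) (mul_le_mul (b0 ξ) (b1 ξ) (norm_nonneg _) p0) (by positivity)
        p0).2.1 (c0.mul (c0.mul c1))
  refine ⟨Av (f1 ε) (-1) fun ξ => 1 / (0 - ex (Lx ε N) (-1) ξ) * (1 / (α - ex (Lx ε N) (-1) ξ)),
    Av (f1 ε) (-1) fun ξ => 1 / (0 - ex (Lx ε N) (-1) ξ) *
      (1 / (0 - ex (Lx ε N) (-1) ξ) * (1 / (α - ex (Lx ε N) (-1) ξ))), fun w => ?_, ?_⟩
  · obtain ⟨-, -, -, -, j2, w2⟩ := hl _ _ (2 * w) i2 i2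
    obtain ⟨-, -, -, -, j3, w3⟩ := hl _ _ (w ^ 2) i3 i3
    obtain ⟨j4, w4, -⟩ := hl _ _ 0 i1 j2
    obtain ⟨-, w5, -⟩ := hl _ _ 0 j4 j3
    rw [← w2, ← w3, show I0 (gx ε N) α = _ from v1.symm, ← w4, ← w5]
    unfold JM
    congr 1
    funext ξ
    have e0 := n0 ξ
    have e1 := n1 ξ
    unfold rj
    rw [zero_sub] at e0 ⊢
    rw [neg_add_eq_sub _ α]
    generalize α - ex (Lx ε N) (-1) ξ = t at e1 ⊢
    generalize -ex (Lx ε N) (-1) ξ = s at e0 ⊢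
    field_simp
    ring
  · obtain ⟨-, -, -, -, -, w2⟩ := hl _ _ α i2 i2
    obtain ⟨-, -, -, w4, -⟩ := hl _ _ 0 i0 i1
    rw [← w2, show I0 (gx ε N) α = _ from v1.symm, show I0 (gx ε N) 0 = _ from v0.symm, ← w4]
    congr 1
    funext ξ
    rw [div_sub_div _ _ (n0 ξ) (n1 ξ), one_div_mul_one_div, mul_one_div]
    congr 1
    ring

end Pool.Agent.MP_20b2fd_nt.H75
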