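import Pool.Agent.MP_20b2fd_nt.H75.SpecE

/-! Row Lo: the function of the character near one. -/

set_option autoImplicit false

namespace Pool.Agent.MP_20b2fd_nt.H75

open MeasureTheory Complex Finset
open Pool.Agent.MP_20b2fd_nt.H38 Pool.Agent.MP_20b2fd_nt.H39 Pool.Agent.MP_20b2fd_nt.F5
open Pool.Agent.MP_c5bf7b_nt.H38 (Ch SiegS)
open DirichletCharacter (LFunction)
open scoped Real

theorem LoE.ez_le {D : ℕ} (χ : Ch D) (z : ℝ) :
    ‖ez χ z 1‖ ≤ Real.exp (∑ p ∈ pz z, (1 : ℝ) / p) := by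
  rw [ez, norm_prod, Real.exp_sum]
  refine prod_le_prod (fun _ _ => norm_nonneg _) fun p _ => ?_
  refine (norm_sub_le _ _).trans (le_trans ?_ (Real.add_one_le_exp _))
  rw [norm_one, add_comm, norm_mul, cpow_neg_one, norm_inv, Complex.norm_natCast, one_div]
  have := mul_le_mul_of_nonneg_right (χ.norm_le_one p) (inv_nonneg.2 (Nat.cast_nonneg (α := ℝ) p))
  linarith

theorem loOf : LoOf := by
  rintro ⟨A, hA, -, -, hM⟩ ⟨c, C, c0, c1, C1, -, hL⟩
  have e1 : 1 ≤ Real.exp A := Real.one_le_exp (by linarith)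
  have hC : C ≤ C * Real.exp A := le_mul_of_one_le_right (by linarith) e1
  refine ⟨c, C * Real.exp A, c0, by linarith, C1.trans hC, ?_⟩
  intro D _ χ β z h1 h2 h3 h4 h5 h6 h7
  obtain ⟨-, f1, f2, f3, -, -, f4, f5, f6⟩ := hL D χ β z h1 h2 h3 h4 (by linarith) h6 h7
  have hF : H80.Fb χ β 1 = ((H80.Fb χ β 1).re : ℂ) := by
    apply Complex.ext <;> simp [f2]
  generalize (H80.Fb χ β 1).re = F at hF f3
  have hn : ‖H80.Fb χ β 1‖ = F := by rw [hF, Complex.norm_real, Real.norm_of_nonneg f3.le]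
  have l0 : 0 < Real.log z := Real.log_pos (by linarith)
  rw [hn] at f4 f5 f6
  refine ⟨F, ⟨f3, fun s hs => ?_, f6.trans (by gcongr)⟩, ?_⟩
  · rw [f1, ← hF, ← mul_sub, norm_mul]
    calc _ ≤ ‖s - β‖ * (C * Real.exp A * ‖s - 1‖ * Real.log z * F) := by
          gcongr
          exact (f4 s hs).1.trans (by gcongr)
      _ = _ := by ring
  · have h8 : ‖ez χ z 1‖ ≤ Real.exp A * Real.log z := by
      refine (LoE.ez_le χ z).trans ?_
      rw [← Real.exp_log l0, ← Real.exp_add]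
      exact Real.exp_le_exp.2 (by linarith [(abs_le.1 (hM z (by linarith))).2])
    have h9 := f5.trans (mul_le_mul_of_nonneg_left h8 f3.le)
    rw [div_le_iff₀ (by linarith)] at h9 ⊢
    exact le_of_mul_le_mul_right (by linarith) l0

end Pool.Agent.MP_20b2fd_nt.H75
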