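import Pool.Agent.MP_20b2fd_nt.H75.Core

/-! The first moment of the perturbation and the gain in the mixed moment. -/

set_option autoImplicit false

namespace Pool.Agent.MP_20b2fd_nt.H75

open MeasureTheory Complex Finset Filter Topology
open Pool.Agent.MP_20b2fd_nt.H38 Pool.Agent.MP_20b2fd_nt.H39 Pool.Agent.MP_20b2fd_nt.F5
open Pool.Agent.MP_c5bf7b_nt.H38 (Ch)
open DirichletCharacter (LFunction)
open scoped Real

namespace ME

theorem it_sum {j : ℕ} (hj : j ≤ 1) {ι : Type} (T : Finset ι) (c : ι → ℂ) (f : ι → ℂ → ℂ) (a : ℂ)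
    (h : ∀ t ∈ T, DifferentiableAt ℂ (f t) 0) :
    iteratedDeriv j (fun u => a * ∑ t ∈ T, c t * f t u) 0 =
      a * ∑ t ∈ T, c t * iteratedDeriv j (f t) 0 := by
  interval_cases j
  · simp only [iteratedDeriv_zero]
  · simp only [iteratedDeriv_one]
    exact ((HasDerivAt.fun_sum fun t ht => (h t ht).hasDerivAt.const_mul (c t)).const_mul a).deriv

theorem flat {ι : Type} (J : Finset ι) (n : ι → ℕ) (x : ι → ℝ) (M : ℕ) (ν : ℕ → ℝ)
    (hn : ∀ i ∈ J, 1 ≤ n i) : ∃ (κ : Type) (T : Finset κ) (c : κ → ℝ) (m : κ → ℕ),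
    (∀ t ∈ T, 1 ≤ m t) ∧
    (∀ G : ℕ → ℝ, ∑ i ∈ J, ∑ l ∈ Icc 1 M, x i * ν l * Bh G (n i) l = ∑ t ∈ T, c t * G (m t)) ∧
    ∀ G : ℕ → ℂ, ∑ i ∈ J, ∑ l ∈ Icc 1 M, (x i : ℂ) * ν l * Bh G (n i) l =
      ∑ t ∈ T, (c t : ℂ) * G (m t) := by
  refine ⟨(_ : ι × ℕ) × ℕ, (J ×ˢ Icc 1 M).sigma fun p => ((n p.1).gcd p.2).divisors,
    fun t => x t.1.1 * ν t.1.2 * t.2, fun t => n t.1.1 * t.1.2 / t.2 ^ 2, fun t ht => ?_,
    fun G => ?_, fun G => ?_⟩
  · obtain ⟨a, b⟩ := mem_sigma.1 ht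
    obtain ⟨a1, a2⟩ := mem_product.1 a
    have h1 := Nat.dvd_of_mem_divisors b
    refine Nat.div_pos (Nat.le_of_dvd (Nat.mul_pos (hn _ a1) (mem_Icc.1 a2).1) ?_)
      (pow_pos (Nat.pos_of_mem_divisors b) 2)
    rw [sq]
    exact mul_dvd_mul (h1.trans (Nat.gcd_dvd_left _ _)) (h1.trans (Nat.gcd_dvd_right _ _))
  · rw [sum_sigma, sum_product]
    simp only [Bh, mul_sum, mul_assoc]
  · rw [sum_sigma, sum_product]
    simp only [Bh, mul_sum, mul_assoc, ofReal_mul, ofReal_natCast]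

theorem fac {x y : ℂ} {δ : ℝ} (d0 : 0 ≤ δ) (h : ‖x - y‖ ≤ δ * ‖y‖) :
    ∃ φ : ℂ, x = y * φ ∧ ‖φ - 1‖ ≤ δ := by
  by_cases e : y = 0
  · rw [e, norm_zero, mul_zero, sub_zero, norm_le_zero_iff] at h
    exact ⟨1, by rw [h, e, zero_mul], by simpa using d0⟩
  · refine ⟨x / y, by field_simp, ?_⟩
    rwa [div_sub_one e, norm_div, div_le_iff₀ (norm_pos_iff.2 e)]

theorem m2 {a b : ℂ} {s t : ℝ} (h : ‖a - 1‖ ≤ s) (h' : ‖b - 1‖ ≤ t) (t1 : t ≤ 1) :
    ‖a * b - 1‖ ≤ 2 * s + t := by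
  rw [show a * b - 1 = (a - 1) * (b - 1) + (a - 1) + (b - 1) by ring]
  refine (norm_add₃_le.trans (add_le_add_three ((norm_mul_le _ _).trans
    (mul_le_mul h (h'.trans t1) (norm_nonneg _) ((norm_nonneg _).trans h))) h h')).trans_eq ?_
  ring

theorem vr : Vr 1 = 4 / 15 := by
  rw [Vr, show Nat.totient (30 * 1) = 8 by decide]
  norm_num

/-- the function and its derivative near one -/
theorem lfac {D : ℕ} [NeZero D] {χ : Ch D} {β z c C F ρ L B σ : ℝ} (ne : χ ≠ 1)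
    (lo : LOk χ β z c C F) (hL : 0 < L) (hz : Real.log z ≤ ρ * L) (z1 : 1 ≤ z) (rc : ρ ≤ c)
    (r0 : 0 ≤ ρ) (C0 : 0 ≤ C) (b1 : β < 1) (hB : (1 - β) * (L / 2) ≤ B)
    (hσ : C * (2 + 4 * B) * ρ ≤ σ) {u : ℂ} (hu : ‖u‖ ≤ 1 / (2 * L)) :
    ∃ φ ψ : ℂ, LFunction χ (1 + u) = (u + (1 - β)) * F * φ ∧
      deriv (LFunction χ) (1 + u) = F * ψ ∧ ‖φ - 1‖ ≤ σ ∧ ‖ψ - 1‖ ≤ σ := by
  obtain ⟨F0, lo, -⟩ := lo
  have B0 : 0 ≤ B := le_trans (mul_nonneg (by linarith) (by linarith)) hB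
  have s0 : 0 ≤ σ := le_trans (by positivity) hσ
  have dL := DirichletCharacter.differentiable_LFunction ne
  have nF : ‖(F : ℂ)‖ = F := by rw [norm_real, Real.norm_of_nonneg F0.le]
  have key : ∀ s : ℂ, ‖s - 1‖ ≤ 1 / L →
      ‖LFunction χ s - (s - β) * F‖ ≤ C * ρ * ‖s - β‖ * F := fun s hs => by
    have : ‖s - 1‖ * Real.log z ≤ ρ :=
      (mul_le_mul hs hz (Real.log_nonneg z1) (by positivity)).trans_eq (by field_simp)
    exact (lo s (this.trans rc)).trans (by gcongr)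
  have l2 : 1 / (2 * L) + 1 / (2 * L) = 1 / L := by field_simp; norm_num
  have l0 : 0 < 1 / (2 * L) := by positivity
  obtain ⟨φ, e1, p1⟩ := fac (x := LFunction χ (1 + u)) (y := (u + (1 - β)) * F) s0 (by
    have := key (1 + u) (by rw [add_sub_cancel_left]; linarith)
    rw [show 1 + u - β = u + (1 - β) by ring] at this
    rw [norm_mul, nF, ← mul_assoc]
    refine this.trans ?_
    gcongr
    nlinarith [mul_nonneg C0 r0, mul_nonneg (mul_nonneg C0 r0) B0])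
  obtain ⟨ψ, e2, p2⟩ := fac (x := deriv (LFunction χ) (1 + u)) (y := F) s0 (by
    have dd : ∀ s : ℂ, HasDerivAt (fun s => LFunction χ s - (s - β) * F)
        (deriv (LFunction χ) s - 1 * F) s := fun s =>
      (dL s).hasDerivAt.sub (((hasDerivAt_id s).sub_const _).mul_const _)
    have := CoreA.cau (c := 1 + u) (C := C * ρ * (1 / L + (1 - β)) * F) l0
      (fun s _ => (dd s).differentiableAt) fun s hs => by
        have h1 : ‖s - 1‖ ≤ 1 / L := by
          rw [show s - 1 = s - (1 + u) + u by ring]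
          linarith [norm_add_le (s - (1 + u)) u]
        refine (key s h1).trans ?_
        gcongr
        rw [show s - β = s - 1 + ((1 - β : ℝ) : ℂ) by push_cast; ring]
        refine (norm_add_le _ _).trans ?_
        rw [norm_real, Real.norm_of_nonneg (by linarith)]
        linarith
    rw [(dd _).deriv, one_mul] at this
    rw [nF]
    refine this.trans ?_
    rw [show C * ρ * (1 / L + (1 - β)) * F / (1 / (2 * L)) =
      C * (2 + 4 * ((1 - β) * (L / 2))) * ρ * F by field_simp; ring]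
    exact mul_le_mul_of_nonneg_right (le_trans (by gcongr) hσ) F0.le)
  exact ⟨φ, ψ, e1, e2, p1, p2⟩

/-- value and derivative of a function close to a quadratic polynomial -/
theorem afac {A : ℂ → ℂ} {P J₁ J₂ α : ℂ} {k e l B : ℝ} (hl : 0 < l) (k0 : 0 < k) (e0 : 0 ≤ e)
    (B0 : 0 ≤ B) (hA : Differentiable ℂ A) (hα : ‖α‖ ≤ (1 + B) / l)
    (h : ∀ w : ℂ, ‖w‖ ≤ 1 / (4 * l) → ‖A w - k * (P + 2 * w * J₁ + w ^ 2 * J₂)‖ ≤ e * l * k) :
    ∃ a₀ a₁ : ℂ, A 0 = k * a₀ ∧ α * deriv A 0 = 2 * k * a₁ ∧ ‖a₀ - P‖ ≤ 2 * (1 + B) * e * l ∧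
      ‖a₁ - α * J₁‖ ≤ 2 * (1 + B) * e * l := by
  have k1 : (k : ℂ) ≠ 0 := ofReal_ne_zero.2 k0.ne'
  have nk : ‖(k : ℂ)‖ = k := by rw [norm_real, Real.norm_of_nonneg k0.le]
  refine ⟨A 0 / k, α * deriv A 0 / (2 * k), by field_simp, by field_simp, ?_, ?_⟩
  · have := h 0 (by simpa using hl.le)
    rw [show A 0 / k - P = (A 0 - k * (P + 2 * 0 * J₁ + 0 ^ 2 * J₂)) / k by field_simp; ring,
      norm_div, nk, div_le_iff₀ k0]
    refine this.trans ?_
    gcongr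
    nlinarith
  · have dd : ∀ w : ℂ, HasDerivAt (fun w => A w - k * (P + 2 * w * J₁ + w ^ 2 * J₂))
        (deriv A w - k * (2 * 1 * J₁ + (2 : ℕ) * w ^ (2 - 1) * J₂)) w := fun w =>
      (hA w).hasDerivAt.sub ((((((hasDerivAt_id w).const_mul 2).mul_const J₁).const_add P).add
        ((hasDerivAt_pow 2 w).mul_const J₂)).const_mul _)
    have := CoreA.cau (c := 0) (r := 1 / (4 * l)) (by positivity)
      (fun w _ => (dd w).differentiableAt) fun w hw => h w (by simpa using hw)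
    rw [(dd 0).deriv] at this
    rw [show α * deriv A 0 / (2 * k) - α * J₁ = α * (deriv A 0 -
      k * (2 * 1 * J₁ + (2 : ℕ) * 0 ^ (2 - 1) * J₂)) / (2 * k) by field_simp; ring, norm_div,
      norm_mul, norm_mul, nk, Complex.norm_two, div_le_iff₀ (by positivity)]
    refine (mul_le_mul hα this (norm_nonneg _) (by positivity)).trans_eq ?_
    field_simp
    ring

end ME

open ME in
theorem mOf : MOf := by
  rintro ⟨-, -, dg, g0, -⟩ ⟨_, -, AR⟩ ⟨f1s, -, cE, cE0, hE⟩ ⟨CE, CE1, Ey⟩ Xy Ap Jm C₀ c C c0 c1 C1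
  obtain ⟨B, hB⟩ : ∃ B, B = |C₀| := ⟨_, rfl⟩
  have B0 : 0 ≤ B := hB ▸ abs_nonneg _
  obtain ⟨ρc, rc0, rc1, co⟩ := core B
  refine ⟨π * Real.exp (-B), 2 * (1 + 4 * B), by positivity, by linarith, fun ε e0 e1 => ?_⟩
  obtain ⟨C', C'1, Xy⟩ := Xy c C ε c0 c1 C1 e0 e1
  obtain ⟨σ, hσ⟩ : ∃ σ, σ = ρc / 7 := ⟨_, rfl⟩
  have s0 : 0 < σ := hσ ▸ by positivity
  have s1 : σ ≤ 1 := by linarith
  obtain ⟨T, hT⟩ : ∃ T, T = C * (2 + 4 * B) + CE + 16 * (1 + B) * C' + 10 := ⟨_, rfl⟩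
  have t1 : 0 ≤ C * (2 + 4 * B) := by positivity
  have t2 : 0 ≤ 16 * (1 + B) * C' := by positivity
  have T0 : 0 < T := by linarith
  obtain ⟨δ, d0, hδ⟩ := Metric.continuousAt_iff.1 (dg 0 (by simp)).continuousAt σ s0
  obtain ⟨N₀, hN⟩ := eventually_atTop.1 ((eventually_ge_atTop 3).and
    ((Real.tendsto_log_atTop.comp tendsto_natCast_atTop_atTop).eventually_ge_atTop
      (1 + 1 / δ + |Real.log (4 * π ^ 2)| / σ)))
  refine ⟨min c (σ / T), N₀, lt_min c0 (by positivity), fun N D _ χ β z F Λ ρ j n0 hρ st => ?_⟩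
  obtain ⟨N3, hl⟩ := hN N n0
  obtain ⟨sq, ne, lo, b1, b0, z5, zD, zr, zL, LN', hj⟩ := st
  obtain ⟨L, hL⟩ : ∃ L, L = Real.log N := ⟨_, rfl⟩
  rw [Function.comp, ← hL] at hl
  have u1 : 0 ≤ 1 / δ := by positivity
  have u2 : 0 ≤ |Real.log (4 * π ^ 2)| / σ := by positivity
  have L0 : 0 < L := by linarith
  have r0 : 0 < ρ := by nlinarith
  have rT : T * ρ ≤ σ := (le_div_iff₀' T0).1 (hρ.trans (min_le_right _ _))
  have r1 : C * (2 + 4 * B) * ρ ≤ σ := le_trans (by gcongr; linarith) rT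
  have r2 : CE * ρ ≤ σ := le_trans (by gcongr; linarith) rT
  have r3 : 16 * (1 + B) * C' * ρ ≤ σ := le_trans (by gcongr; linarith) rT
  have r4 : 10 * ρ ≤ σ := le_trans (by gcongr; linarith) rT
  have zl : Real.log z ≤ ρ * L := zL.trans (by rw [hL]; gcongr)
  have F0 := lo.1
  have E0' : 0 < E0 χ z :=
    lt_of_lt_of_le (div_pos cE0 (pow_pos (Real.log_pos (by linarith)) 4)) (hE D χ z sq z5).1
  have N0 : (0 : ℝ) < N := by exact_mod_cast (by omega : 0 < N)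
  have D0 : (0 : ℝ) < D := by exact_mod_cast NeZero.pos D
  have Q0 : (Qc D N : ℂ) ≠ 0 := ofReal_ne_zero.2 (mul_pos D0 (Real.sqrt_pos.2 N0)).ne'
  have dB : (1 - β) * (L / 2) ≤ B := by
    rw [← hL] at b0
    linarith [le_abs_self C₀]
  have dL := DirichletCharacter.differentiable_LFunction ne
  obtain ⟨κ, S, a, m, m1, fr, fc⟩ := flat (JX ε N) nn (xX ε N) (Mz Λ) (nu χ z Λ) fun i hi =>
    Nat.mul_pos (Nat.pos_of_mem_divisors (mem_product.1 hi).1) (mem_Icc.1 (mem_product.1 hi).2).1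
  have dq : ∀ u : ℂ, ‖u‖ ≤ 1 / (2 * L) →
      DifferentiableAt ℂ (fun u => gm u * (Qc D N : ℂ) ^ u) u := fun u hu => by
    refine (dg u ?_).mul (differentiableAt_id.const_cpow (.inl Q0))
    have : 1 / (2 * L) < 1 := (div_lt_one (by positivity)).2 (by linarith)
    linarith [(abs_le.1 (abs_re_le_norm u)).1]
  have d1 : ∀ u : ℂ, ‖u‖ ≤ 1 / (2 * L) → ∀ l : ℕ, DifferentiableAt ℂ (fun u => gm u *
      (Qc D N : ℂ) ^ u * (LFunction χ (1 + u) * ∑ d ∈ l.divisors, χ d * (d : ℂ) ^ (-u))) u :=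
    fun u hu l => (dq u hu).mul (((dL _).comp u (differentiableAt_id.const_add 1)).mul
      (DifferentiableAt.fun_sum fun d hd => (differentiableAt_id.neg.const_cpow (.inl
        (Nat.cast_ne_zero.2 (Nat.pos_of_mem_divisors hd).ne'))).const_mul _))
  have d2 : ∀ u : ℂ, ‖u‖ ≤ 1 / (2 * L) → ∀ t ∈ S, DifferentiableAt ℂ (fun u => gm u *
      (Qc D N : ℂ) ^ u * Hf χ (LN N) (m t) u) u := fun u hu t ht =>
    (dq u hu).mul (((AR D χ _ (m1 t ht)).2.2.2.2.2.2 ne _).1 u)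
  have z0 : ‖(0 : ℂ)‖ ≤ 1 / (2 * L) := by simpa using L0.le
  have l4 : 4 * (L / 2) = 2 * L := by ring
  have H := co j (L / 2) (1 - β) (gx ε N)
    (fun u => ((F * E0 χ z : ℝ) : ℂ)⁻¹ * ∑ l ∈ Icc 1 (Mz Λ), (nu χ z Λ l : ℂ) * (gm u *
      (Qc D N : ℂ) ^ u * (LFunction χ (1 + u) * ∑ d ∈ l.divisors, χ d * (d : ℂ) ^ (-u))))
    (fun u => ((2 * F * E0 χ z * Vr 1 : ℝ) : ℂ)⁻¹ * ∑ t ∈ S, (a t : ℂ) * (gm u *
      (Qc D N : ℂ) ^ u * Hf χ (LN N) (m t) u)) hj (by linarith) (by linarith) dB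
    ⟨((f1s ε e0 (by linarith)).1.2.1 0).continuous.comp (continuous_id.div_const _),
      fun t => ⟨((f1s ε e0 (by linarith)).2 _).1, ((f1s ε e0 (by linarith)).2 _).2.1⟩,
      fun t ht => ((f1s ε e0 (by linarith)).2 _).2.2.2 (by
        rw [Lx, ← hL, one_le_div (mul_pos (by linarith) L0)]
        nlinarith)⟩
  refine (H fun u hu => ?_).elim fun k1 k2 => ?_
  rotate_left
  · rw [it_sum hj _ _ _ _ fun l _ => d1 0 z0 l, ← ofReal_inv, re_ofReal_mul, re_sum] at k1 k2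
    rw [it_sum hj _ _ _ _ (d2 0 z0), ← ofReal_inv, re_ofReal_mul, re_sum] at k2
    rw [fr]
    simp only [R1, Rn, re_ofReal_mul] at k1 k2 ⊢
    have V0 : 0 < Vr 1 := by rw [vr]; norm_num
    rw [abs_mul, abs_of_pos (by positivity), inv_mul_le_iff₀ (by positivity)] at k1
    refine ⟨k1.trans_eq (by rw [y0]; ring), ?_⟩
    have k3 := mul_le_mul_of_nonneg_left k2
      (show 0 ≤ 2 * π * Vr 1 * F * E0 χ z by positivity)
    simp only [mul_left_comm _ π, ← mul_sum]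
    rw [H39.AX, y0, ← hL]
    refine le_of_eq_of_le (by ring) (k3.trans_eq ?_)
    field_simp
    ring
  rw [l4] at hu
  have cd : ((1 - β : ℝ) : ℂ) = 1 - β := by push_cast; rfl
  have ul : ‖u‖ * L ≤ 1 / 2 := ((le_div_iff₀ (by positivity)).1 hu |> fun h => by linarith)
  have uz : ‖u‖ * Real.log z ≤ ρ := by
    nlinarith [mul_le_mul_of_nonneg_left zl (norm_nonneg u)]
  obtain ⟨φ, ψ, eL, eL', p1, p2⟩ := lfac ne lo L0 zl (by linarith) (hρ.trans (min_le_left _ _))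
    r0.le (by linarith) b1 dB r1 hu
  have p3 : ‖gm u - 1‖ ≤ σ := by
    have := hδ (x := u) (by
      rw [dist_zero_right]
      refine hu.trans_lt ?_
      rw [div_lt_iff₀ (by positivity), ← div_lt_iff₀' d0]
      linarith)
    rw [g0, dist_eq_norm] at this
    exact this.le
  have p4 : ‖exp (Real.log D * u) - 1‖ ≤ σ := by
    have : ‖(Real.log D : ℂ) * u‖ ≤ ρ := by
      rw [norm_mul, norm_real, Real.norm_of_nonneg (Real.log_natCast_nonneg D), mul_comm]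
      exact (mul_le_mul_of_nonneg_left (Real.log_le_log D0 zD) (norm_nonneg u)).trans uz
    linarith [norm_exp_sub_one_le (this.trans (by linarith))]
  have eQ : (Qc D N : ℂ) ^ u = exp (Real.log D * u) * exp ((L / 2 : ℝ) * u) := by
    rw [cpow_def_of_ne_zero Q0, Qc, ← ofReal_log (mul_pos D0 (Real.sqrt_pos.2 N0)).le, ← exp_add,
      Real.log_mul D0.ne' (Real.sqrt_pos.2 N0).ne', Real.log_sqrt N0.le, ← hL, ofReal_add, add_mul]
  have p5 := m2 p3 p4 s1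
  have FE : (F : ℂ) ≠ 0 := ofReal_ne_zero.2 F0.ne'
  have EE : (E0 χ z : ℂ) ≠ 0 := ofReal_ne_zero.2 E0'.ne'
  refine ⟨(DifferentiableAt.fun_sum fun l _ => (d1 u hu l).const_mul _).const_mul _,
    (DifferentiableAt.fun_sum fun t ht => (d2 u hu t ht).const_mul _).const_mul _, ?_, ?_⟩
  · obtain ⟨b, eb, p6⟩ := fac (y := E0 χ z) s0.le ((Ey D χ z Λ ρ u _ sq z5 (by linarith) zL uz
      (Ap D χ u).2.1 (Ap D χ u).2.2).trans (by
        rw [norm_real, Real.norm_of_nonneg E0'.le]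
        gcongr))
    refine ⟨gm u * exp (Real.log D * u) * φ, b, ?_, (m2 p5 p1 s1).trans (by linarith),
      by linarith⟩
    simp only [mul_left_comm (nu χ z Λ _ : ℂ), ← mul_sum]
    rw [eb, eL, eQ, cd, ofReal_mul]
    field_simp
  obtain ⟨J₁, J₂, j1, j2⟩ := Jm ε N (u + (1 - β)) e0 e1 (by omega) (by
    rw [← cd, add_re, ofReal_re, ← hL]
    nlinarith [(abs_le.1 (abs_re_le_norm u)).1])
  have V0 : 0 < Vr 1 := by rw [vr]; norm_num
  have dA : Differentiable ℂ fun w => ∑ t ∈ S, (a t : ℂ) * Af χ u w (m t) :=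
    Differentiable.fun_sum fun t ht => ((AR D χ _ (m1 t ht)).2.1 u).const_mul _
  obtain ⟨a₀, a₁, ea, ea', p6, p7⟩ := afac (k := E0 χ z * Vr 1 / F) (e := 8 * C' * ρ) (l := L / 2)
    (P := I0 (gx ε N) (u + (1 - β))) (J₁ := J₁) (J₂ := J₂) (α := u + (1 - β)) (by linarith)
    (by positivity) (by positivity) B0 dA (by
      rw [← cd, add_div]
      refine (norm_add_le _ _).trans (add_le_add (hu.trans
        (one_div_le_one_div_of_le (by linarith) (by linarith))) ?_)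
      rw [norm_real, Real.norm_of_nonneg (by linarith), le_div_iff₀ (by linarith)]
      exact dB) fun w hw => by
      rw [l4, le_div_iff₀ (by positivity)] at hw
      have := Xy N D χ β z F Λ ρ w w u _ N3 sq lo b1.le z5 r0 (by linarith) zr zL LN'
        (by rw [← hL]; linarith) (by rw [← hL]; linarith) (by rw [← hL]; linarith) ((Ap D χ u).1 w)
      rw [fc, j1, ← hL] at this
      push_cast
      refine this.trans ?_
      rw [vr, show 8 * C' * ρ * (L / 2) * (E0 χ z * (4 / 15) / F) =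
        16 / 15 * (C' * ρ * (L * E0 χ z / F)) by ring]
      exact le_mul_of_one_le_left (by positivity) (by norm_num)
  have h1 := HasDerivAt.fun_sum fun t ht =>
    (((AR D χ _ (m1 t ht)).2.2.2.2.2.2 ne (LN N)).2 u).const_mul (a t : ℂ)
  have h2 := ((((hasDerivAt_id (0 : ℂ)).const_mul (LN N : ℂ)).cexp).mul
    (((dL (1 + u + 0)).hasDerivAt.comp 0 ((hasDerivAt_id (0 : ℂ)).const_add (1 + u))).pow 2)).mul
    (dA 0).hasDerivAt
  simp only [mul_left_comm (a _ : ℂ), ← mul_sum] at h1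
  have h3 := h1.unique h2
  simp only [id, mul_zero, exp_zero, Pi.mul_apply, Pi.pow_apply, Function.comp, add_zero] at h3
  have p8 : ‖(LN N : ℂ) / L - 1‖ ≤ σ := by
    rw [LN, Real.log_div N0.ne' (by positivity), ← hL, ← ofReal_div, ← ofReal_one, ← ofReal_sub,
      norm_real, show (L - Real.log (4 * π ^ 2)) / L - 1 = -(Real.log (4 * π ^ 2) / L) by
        field_simp; ring, norm_neg, Real.norm_eq_abs, abs_div, abs_of_pos L0, div_le_iff₀ L0,
      ← div_le_iff₀' s0]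
    linarith
  have p9 := m2 p1 p1 s1
  have LL : (L : ℂ) ≠ 0 := ofReal_ne_zero.2 L0.ne'
  have VV : (Vr 1 : ℂ) ≠ 0 := ofReal_ne_zero.2 V0.ne'
  have q0 : 2 * (1 + B) * (8 * C' * ρ) * (L / 2) ≤ ρc * (L / 2) := by
    gcongr
    linarith
  refine ⟨gm u * exp (Real.log D * u), φ * φ * (LN N / L), φ * ψ, φ * φ, a₀, a₁, ?_, by linarith,
    (m2 p9 p8 s1).trans (by linarith), (m2 p1 p2 s1).trans (by linarith), by linarith,
    cd ▸ p6.trans q0, cd ▸ j2 ▸ p7.trans q0⟩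
  simp only [mul_left_comm (a _ : ℂ), ← mul_sum]
  rw [h3, ea, eL, eL', eQ, cd]
  push_cast at ea' ⊢
  field_simp at ea' ⊢
  linear_combination (φ ^ 2 * (u + (1 - β)) * gm u) * ea'

end Pool.Agent.MP_20b2fd_nt.H75
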