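import Pool.Agent.MP_20b2fd_nt.H75.SpecE

/-! The choice of the parameters. -/

set_option autoImplicit false

namespace Pool.Agent.MP_20b2fd_nt.H75

open MeasureTheory Complex Finset
open Pool.Agent.MP_20b2fd_nt.H38 Pool.Agent.MP_20b2fd_nt.H39 Pool.Agent.MP_20b2fd_nt.F5
open Pool.Agent.MP_c5bf7b_nt.H38 (Ch SiegS)
open DirichletCharacter (LFunction)
open scoped Real

namespace PrE

theorem ev (a A : ℝ) (ha : 0 < a) (k : ℕ) :
    ∀ᶠ N : ℕ in Filter.atTop, A * Real.log N ^ k ≤ Real.exp (a * Real.log N) := by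
  have t : Filter.Tendsto (fun N : ℕ => Real.log N) Filter.atTop Filter.atTop :=
    Real.tendsto_log_atTop.comp tendsto_natCast_atTop_atTop
  filter_upwards [t.eventually ((tendsto_exp_mul_div_rpow_atTop k a ha).eventually_ge_atTop A),
    t.eventually_gt_atTop 0] with N h h0
  rwa [Real.rpow_natCast, le_div_iff₀ (pow_pos h0 _)] at h

end PrE

theorem prOf : PrOf := by
  rintro hS ⟨-, -, e, e0, hE⟩ hFn ⟨c, C, c0, c1, C1, hL⟩
  obtain ⟨s, s0, hS⟩ := hS 1 one_pos
  refine ⟨c, C, c0, c1, C1, fun C₀ θ ρ t0 t1 r0 r1 => ?_⟩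
  have a0 := abs_nonneg C₀
  obtain ⟨κ, k0, k1, k2⟩ : ∃ κ : ℝ, 0 < κ ∧ κ ≤ ρ * θ / 4 ∧ κ ≤ c / (2 * (|C₀| + 1)) :=
    ⟨min _ _, lt_min (by positivity) (by positivity), min_le_left _ _, min_le_right _ _⟩
  rw [le_div_iff₀ (by positivity)] at k2
  have k3 : κ ≤ θ / 2 := by nlinarith
  obtain ⟨m, m0, m1, m2⟩ : ∃ m : ℝ, 0 < m ∧ m ≤ 1 ∧ m ≤ s :=
    ⟨min _ _, lt_min one_pos s0, min_le_left _ _, min_le_right _ _⟩
  have t : Filter.Tendsto (fun N : ℕ => Real.log N) Filter.atTop Filter.atTop :=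
    Real.tendsto_log_atTop.comp tendsto_natCast_atTop_atTop
  obtain ⟨N₀, hN⟩ := Filter.eventually_atTop.1 ((PrE.ev (2 * κ) (5 + 1 / ρ) (by positivity) 0).and
    ((PrE.ev (θ / 2) 30 (by positivity) 0).and ((PrE.ev (θ / 2) (C / (e * m)) (by positivity) 4).and
    ((t.eventually_ge_atTop (3 * |C₀| + 1)).and (Filter.eventually_gt_atTop 0)))))
  refine ⟨κ, k0, k3, N₀, fun N D _ χ β h ⟨_, q1, q2, q3⟩ ⟨z1, z2, z3⟩ => ?_⟩
  obtain ⟨h1, h2, h3, h4, h5⟩ := hN N h
  have N0 : (0 : ℝ) < N := by exact_mod_cast h5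
  have rp : ∀ a : ℝ, (N : ℝ) ^ a = Real.exp (a * Real.log N) := fun a => by
    rw [Real.rpow_def_of_pos N0, mul_comm]
  rw [rp] at q3
  simp only [rp]
  generalize hl : Real.log N = L at *
  simp only [pow_zero, mul_one] at h1 h2
  have L0 : 0 < L := by linarith
  have ri : 0 < 1 / ρ := by positivity
  have z5 : 5 ≤ Real.exp (2 * κ * L) := by linarith
  have b0 : (1 - β) * L ≤ C₀ := by
    rw [← le_div_iff₀ L0]; linarith
  have aC := le_abs_self C₀
  have kL := mul_pos k0 L0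
  have zD : (D : ℝ) ≤ Real.exp (2 * κ * L) := q3.trans (Real.exp_le_exp.2 (by linarith))
  obtain ⟨F, hF, F1⟩ := hL D χ β _ q2 q1 z3 z2 z5 zD (by
    rw [Real.log_exp]
    have := mul_le_mul_of_nonneg_left (b0.trans aC) k0.le
    nlinarith)
  obtain ⟨E1, -, E3⟩ := hE D χ _ q2 z5
  have sq : Real.exp (θ * L) = Real.exp (θ / 2 * L) * Real.exp (θ / 2 * L) := by
    rw [← Real.exp_add]; congr 1; ring
  refine ⟨_, F, θ / 2 * L, ⟨q2, q1, hF, z2, hl ▸ b0, z5, zD, ?_, ?_, ?_, ?_⟩, ?_, fun l => ?_,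
    (hFn D χ _ _ _ q2 z5 le_rfl (by positivity)).2, ?_⟩
  · have := mul_le_mul_of_nonneg_left h1 r0.le
    rw [mul_add, mul_one_div_cancel r0.ne'] at this
    linarith
  · rw [Real.log_exp]
    have := mul_le_mul_of_nonneg_right k1 L0.le
    linarith
  · rw [hl]; nlinarith
  · unfold jj; split_ifs <;> omega
  · refine (Nat.floor_le (by positivity)).trans ?_
    rw [sq]
    exact mul_le_mul_of_nonneg_right h2 (Real.exp_pos _).le
  · refine (E3 _ l).trans ?_
    rw [sq]; nlinarith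
  · have D0 : (0 : ℝ) < D := by exact_mod_cast Nat.pos_of_ne_zero (NeZero.ne D)
    have x0 := Real.exp_pos (θ / 2 * L)
    have x1 : 1 ≤ Real.exp (θ / 2 * L) := by linarith
    have g1 : m / Real.exp (θ / 2 * L) ≤ (1 - β) ^ (1 - jj χ N) := by
      have u1 : m / Real.exp (θ / 2 * L) ≤ 1 := (div_le_one x0).2 (by linarith)
      unfold jj
      split_ifs
      · have b : 2 / 3 ≤ β := by
          by_contra hb
          have : 1 / 3 * L ≤ (1 - β) * L := mul_le_mul_of_nonneg_right (by linarith) L0.le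
          linarith
        have u2 := hS D χ β q2 q1 b z3
        rw [Real.rpow_neg_one] at u2
        rw [Nat.sub_zero, pow_one]
        refine le_trans ?_ u2
        rw [← div_eq_mul_inv]
        exact div_le_div₀ s0.le m2 D0 (q3.trans (Real.exp_le_exp.2
          (mul_le_mul_of_nonneg_right k3 L0.le)))
      · simpa using u1
    have g2 : e / L ^ 4 ≤ E0 χ (Real.exp (2 * κ * L)) := by
      refine le_trans ?_ E1
      rw [Real.log_exp]
      have : 2 * κ * L ≤ L := by nlinarith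
      gcongr
    have C0 : 0 < C := by linarith
    have F0 := hF.1
    calc Real.exp (-θ * L) = 1 / Real.exp (θ / 2 * L) / Real.exp (θ / 2 * L) := by
          rw [neg_mul, Real.exp_neg, sq]; field_simp
      _ ≤ 1 / (C / (e * m) * L ^ 4) / Real.exp (θ / 2 * L) := by gcongr
      _ = 1 / C * (e / L ^ 4) * (m / Real.exp (θ / 2 * L)) := by field_simp
      _ ≤ _ := by
          unfold y0
          have : 0 ≤ E0 χ (Real.exp (2 * κ * L)) := le_trans (by positivity) g2
          gcongr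

end Pool.Agent.MP_20b2fd_nt.H75
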