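import Pool.Agent.MP_20b2fd_nt.F5.Spec
import Pool.Agent.MP_20b2fd_nt.H39.SpecM
import Pool.Agent.MP_20b2fd_nt.H80.SpecT
import Pool.Agent.MP_20b2fd_nt.H80.SpecL

/-! From the mollified sums to the real inequalities.
Paper proof: /team-store/MP_20b2fd_H75_E.md -/

set_option autoImplicit false

namespace Pool.Agent.MP_20b2fd_nt.H75

open MeasureTheory Complex Finset
open Pool.Agent.MP_20b2fd_nt.H38 Pool.Agent.MP_20b2fd_nt.H39 Pool.Agent.MP_20b2fd_nt.F5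
open Pool.Agent.MP_c5bf7b_nt.H38 (Ch SiegS)
open DirichletCharacter (LFunction)
open scoped Real

/-- the Laplace transform on the half line -/
noncomputable def I0 (g : ℝ → ℝ) (c : ℂ) : ℂ := ∫ t in Set.Ioi (0 : ℝ), exp (-c * t) * g t

/-- the weight of the long mollifier -/
noncomputable def gx (ε : ℝ) (N : ℕ) (t : ℝ) : ℝ := f1 ε (t / Lx ε N)

/-- the size of the perturbation -/
noncomputable def y0 {D : ℕ} (χ : Ch D) (β z F : ℝ) (j : ℕ) : ℝ := F * E0 χ z * (1 - β) ^ (1 - j)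

/-- the standing hypotheses -/
structure St (C₀ c C ρ : ℝ) (N D : ℕ) [NeZero D] (χ : Ch D) (β z F Λ : ℝ) (j : ℕ) : Prop where
  sq : χ ^ 2 = 1
  ne : χ ≠ 1
  lo : LOk χ β z c C F
  b1 : β < 1
  b0 : (1 - β) * Real.log N ≤ C₀
  z5 : 5 ≤ z
  zD : (D : ℝ) ≤ z
  zr : 1 ≤ ρ * z
  zL : Real.log z ≤ ρ * Λ
  LN : Λ ≤ Real.log N
  hj : j ≤ 1

/-- the arithmetic factors have the shape that the mollifier block asks for -/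
def ApS : Prop :=
  ∀ (D : ℕ) (χ : Ch D) (u : ℂ), (∀ w : ℂ, AP χ w w u (Af χ u w)) ∧
    Mu (fun l => ∑ d ∈ l.divisors, χ d * (d : ℂ) ^ (-u)) ∧
    ∀ p : ℕ, p.Prime → ∑ d ∈ p.divisors, χ d * (d : ℂ) ^ (-u) = 1 + χ p * (p : ℂ) ^ (-u)

/-- simple fractions -/
def JmS : Prop :=
  ∀ (ε : ℝ) (N : ℕ) (α : ℂ), 0 < ε → ε ≤ 1 / 10 → 2 ≤ N → -1 ≤ α.re * Real.log N →
    ∃ J₁ J₂ : ℂ, (∀ w : ℂ, JM ε N w w α = I0 (gx ε N) α + 2 * w * J₁ + w ^ 2 * J₂) ∧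
      α * J₁ = I0 (gx ε N) 0 - I0 (gx ε N) α

/-- the function of the character near one, with a lower bound -/
def LoS : Prop :=
  ∃ c C : ℝ, 0 < c ∧ c ≤ 1 ∧ 1 ≤ C ∧ ∀ (D : ℕ) [NeZero D] (χ : Ch D) (β z : ℝ), χ ^ 2 = 1 →
    χ ≠ 1 → LFunction χ β = 0 → β < 1 → 5 ≤ z → (D : ℝ) ≤ z → (1 - β) * Real.log z ≤ c →
    ∃ F : ℝ, LOk χ β z c C F ∧ 1 / C ≤ F

/-- the first moment and the gain -/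
def MS : Prop :=
  ∀ C₀ c C : ℝ, 0 < c → c ≤ 1 → 1 ≤ C → ∃ g K : ℝ, 0 < g ∧ 1 ≤ K ∧ ∀ ε : ℝ, 0 < ε → ε ≤ 1 / 10 →
    ∃ (ρ₀ : ℝ) (N₀ : ℕ), 0 < ρ₀ ∧ ∀ (N D : ℕ) [NeZero D] (χ : Ch D) (β z F Λ ρ : ℝ)
      (j : ℕ), N₀ ≤ N → ρ ≤ ρ₀ → St C₀ c C ρ N D χ β z F Λ j →
      |∑ l ∈ Icc 1 (Mz Λ), nu χ z Λ l * (R1 χ j (Qc D N) l).re| ≤ K * y0 χ β z F j ∧
      g * H39.AX N * y0 χ β z F j ≤
        4 * π * H39.AX N * (∑ l ∈ Icc 1 (Mz Λ), nu χ z Λ l * (R1 χ j (Qc D N) l).re) -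
          ∑ i ∈ JX ε N, ∑ l ∈ Icc 1 (Mz Λ),
            xX ε N i * nu χ z Λ l * Bh (fun n => (Rn χ j (LN N) (Qc D N) n).re) (nn i) l

/-- the data for the second moment -/
def YS : Prop :=
  ∀ C₀ c C : ℝ, 0 < c → c ≤ 1 → 1 ≤ C → ∃ K ρ₀ : ℝ, 1 ≤ K ∧ 0 < ρ₀ ∧ ∀ θ : ℝ, 0 < θ →
    ∃ N₀ : ℕ, ∀ (N D : ℕ) [NeZero D] (χ : Ch D) (β z F Λ ρ : ℝ) (j : ℕ), N₀ ≤ N → ρ ≤ ρ₀ →
      St C₀ c C ρ N D χ β z F Λ j → (Mz Λ : ℝ) ≤ (N : ℝ) ^ θ →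
      ∃ (ι : Type) (J : Finset ι) (ν : ι → ℝ) (l : ι → ℕ) (L₁ B : ℝ),
        Mo (2 * θ) N D χ J (fun i => (ν i : ℂ)) l L₁ B ∧
        (∀ T : ℕ → ℝ, Bl (Icc 1 (Mz Λ)) id (nu χ z Λ) T = ∑ i ∈ J, ν i * T (l i)) ∧
        (D.totient / D : ℝ) * B * L₁ ^ 2 * (if j = 0 then ‖LFunction χ 1‖ ^ 2 else L₁ ^ 2) ≤
          K * y0 χ β z F j ^ 2

/-- the choice of the parameters -/
def PrS : Prop :=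
  ∃ c C : ℝ, 0 < c ∧ c ≤ 1 ∧ 1 ≤ C ∧ ∀ C₀ θ ρ : ℝ, 0 < θ → θ ≤ 1 / 100 → 0 < ρ → ρ ≤ 1 / 10 →
    ∃ κ : ℝ, 0 < κ ∧ κ ≤ θ / 2 ∧ ∃ N₀ : ℕ, ∀ (N D : ℕ) [NeZero D] (χ : Ch D) (β : ℝ), N₀ ≤ N →
      QC χ N κ → H80.Ze χ β C₀ N → ∃ z F Λ : ℝ, St C₀ c C ρ N D χ β z F Λ (jj χ N) ∧
        (Mz Λ : ℝ) ≤ (N : ℝ) ^ θ ∧ (∀ l, |nu χ z Λ l| ≤ (N : ℝ) ^ θ) ∧
        ∑ l ∈ Icc 1 (Mz Λ), nu χ z Λ l * sig l = 0 ∧ (N : ℝ) ^ (-θ) ≤ y0 χ β z F (jj χ N)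

/-! ### rows -/

def JmOf : Prop := AvS → JiS → F1S → JmS
def LoOf : Prop := MerS → H80.LocS → LoS
def MOf : Prop := VS → AR0S → F1S → EyS → XyS → ApS → JmS → MS
def YOf : Prop := BLS → F1S → YyS → YS
def PrOf : Prop := SiegS → F1S → FnS → LoS → PrS
def GOf : Prop := FmkS → H20.XwS → FFS → MS → YS → PrS → H80.GS

end Pool.Agent.MP_20b2fd_nt.H75
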