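import Pool.Agent.MP_20b2fd_nt.H75.SpecE

/-! Extraction of Taylor coefficients and the gain of the perturbed vector. -/

set_option autoImplicit false

namespace Pool.Agent.MP_20b2fd_nt.H75

open MeasureTheory Complex Set Metric

/-- a weight between zero and one that vanishes beyond `l` -/
def Wt (g : ℝ → ℝ) (l : ℝ) : Prop :=
  Continuous g ∧ (∀ t, 0 ≤ g t ∧ g t ≤ 1) ∧ ∀ t, l ≤ t → g t = 0

namespace CoreA

variable {g : ℝ → ℝ} {l : ℝ}

theorem i_eq (h : Wt g l) (hl : 0 < l) (c : ℂ) :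
    I0 g c = ∫ t in (0 : ℝ)..l, exp (-c * t) * g t := by
  rw [intervalIntegral.integral_of_le hl.le]
  refine setIntegral_eq_of_subset_of_forall_sdiff_eq_zero measurableSet_Ioi Ioc_subset_Ioi_self
    fun t ht => ?_
  rw [h.2.2 t (not_lt.1 fun e => ht.2 ⟨ht.1, e.le⟩), ofReal_zero, mul_zero]

theorem nexp (h : Wt g l) {c : ℂ} {t R : ℝ} (hc : ‖c‖ ≤ R) (h0 : 0 ≤ t) (h1 : t ≤ l) :
    Real.exp ‖-c * t‖ ≤ Real.exp (R * l) ∧ ‖(g t : ℂ)‖ ≤ 1 := by
  refine ⟨Real.exp_le_exp.2 ?_, ?_⟩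
  · rw [norm_mul, norm_neg, norm_real, Real.norm_of_nonneg h0]
    exact mul_le_mul hc h1 h0 ((norm_nonneg _).trans hc)
  · rw [norm_real, Real.norm_of_nonneg (h.2.1 t).1]
    exact (h.2.1 t).2

theorem i_der (h : Wt g l) (hl : 0 < l) (c : ℂ) :
    HasDerivAt (I0 g) (∫ t in (0 : ℝ)..l, exp (-c * t) * (-t) * g t) c := by
  have hg := h.1
  rw [show I0 g = fun c => ∫ t in (0 : ℝ)..l, exp (-c * t) * g t from funext (i_eq h hl)]
  refine (intervalIntegral.hasDerivAt_integral_of_dominated_loc_of_deriv_le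
    (F := fun c (t : ℝ) => exp (-c * t) * g t)
    (F' := fun c (t : ℝ) => exp (-c * t) * (-t) * g t) (ball_mem_nhds c one_pos)
    (bound := fun _ => Real.exp ((‖c‖ + 1) * l) * l * 1)
    (.of_forall fun x => Continuous.aestronglyMeasurable (by fun_prop))
    (Continuous.intervalIntegrable (by fun_prop) _ _)
    (Continuous.aestronglyMeasurable (by fun_prop)) (.of_forall fun t ht x hx => ?_)
    intervalIntegrable_const (.of_forall fun t _ x _ => ?_)).2
  · rw [uIoc_of_le hl.le] at ht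
    obtain ⟨a, b⟩ := nexp h (R := ‖c‖ + 1) (c := x)
      (by linarith [mem_ball_iff_norm.1 hx, norm_sub_norm_le x c]) ht.1.le ht.2
    rw [norm_mul, norm_mul, norm_neg, norm_real t, Real.norm_of_nonneg ht.1.le]
    exact mul_le_mul (mul_le_mul ((norm_exp_le_exp_norm _).trans a) ht.2 ht.1.le (by positivity)) b
      (norm_nonneg _) (by positivity)
  · have := (((hasDerivAt_id x).neg.mul_const (t : ℂ)).cexp).mul_const (g t : ℂ)
    simpa using this

theorem i_le (h : Wt g l) (hl : 0 < l) {c : ℂ} {R : ℝ} (hc : ‖c‖ ≤ R) :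
    ‖I0 g c‖ ≤ Real.exp (R * l) * l := by
  have a1 : ‖I0 g c‖ ≤ Real.exp (R * l) * 1 * |l - 0| := by
    rw [i_eq h hl]
    refine intervalIntegral.norm_integral_le_of_norm_le_const fun t ht => ?_
    rw [uIoc_of_le hl.le] at ht
    obtain ⟨a, b⟩ := nexp h hc ht.1.le ht.2
    rw [norm_mul]
    exact mul_le_mul ((norm_exp_le_exp_norm _).trans a) b (norm_nonneg _) (by positivity)
  rwa [sub_zero, abs_of_pos hl, mul_one] at a1

theorem cau {f : ℂ → ℂ} {C r : ℝ} {c : ℂ} (hr : 0 < r)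
    (hd : ∀ u, ‖u - c‖ ≤ r → DifferentiableAt ℂ f u)
    (hC : ∀ u, ‖u - c‖ ≤ r → ‖f u‖ ≤ C) : ‖deriv f c‖ ≤ C / r :=
  norm_deriv_le_of_forall_mem_sphere_norm_le hr
    (DifferentiableOn.diffContOnCl fun u hu => (hd u (by
      rwa [closure_ball _ hr.ne', mem_closedBall_iff_norm] at hu)).differentiableWithinAt)
    fun u hu => hC u (mem_sphere_iff_norm.1 hu).le

theorem cf {f : ℂ → ℂ} {ρ d B : ℝ} {j : ℕ} (hj : j ≤ 1) (hl : 0 < l) (d0 : 0 < d) (hB : d * l ≤ B)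
    (r0 : 0 ≤ ρ) (hd : ∀ u, ‖u‖ ≤ 1 / (4 * l) → DifferentiableAt ℂ f u)
    (hC : ∀ u, ‖u‖ ≤ 1 / (4 * l) → ‖f u‖ ≤ ρ * ‖u + d‖) :
    ‖iteratedDeriv j f 0‖ ≤ ρ * (1 + 4 * B) * d ^ (1 - j) := by
  have B0 : 0 ≤ B := le_trans (by positivity) hB
  interval_cases j
  · have := hC 0 (by simpa using hl.le)
    rw [zero_add, norm_real, Real.norm_of_nonneg d0.le] at this
    rw [iteratedDeriv_zero, pow_one]
    exact this.trans (by gcongr; nlinarith)
  · rw [iteratedDeriv_one, pow_zero, mul_one]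
    refine (cau (r := 1 / (4 * l)) (by positivity) (fun u hu => hd u (by simpa using hu))
      (C := ρ * (1 / (4 * l) + d)) fun u hu => ?_).trans ?_
    · rw [sub_zero] at hu
      refine (hC u hu).trans (mul_le_mul_of_nonneg_left ((norm_add_le _ _).trans ?_) r0)
      rw [norm_real, Real.norm_of_nonneg d0.le]
      linarith
    · rw [show ρ * (1 / (4 * l) + d) / (1 / (4 * l)) = ρ * (1 + 4 * (d * l)) by field_simp]
      gcongr

theorem re_int (F : ℝ → ℝ) (G : ℝ → ℂ) (h : ∀ t, G t = F t) :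
    ∫ t in (0 : ℝ)..l, G t = ((∫ t in (0 : ℝ)..l, F t : ℝ) : ℂ) := by
  rw [← intervalIntegral.integral_ofReal, funext h]

theorem le_int (h : Wt g l) (hl : 0 < l) {F Φ : ℝ → ℝ} (hF : Continuous F)
    (h0 : ∀ t, 0 ≤ t → t ≤ l → 0 ≤ F t) (hΦ : ∀ t, HasDerivAt Φ (F t) t) :
    ∫ t in (0 : ℝ)..l, F t * g t ≤ Φ l - Φ 0 := by
  have hg := h.1
  rw [← intervalIntegral.integral_eq_sub_of_hasDerivAt (fun t _ => hΦ t) (hF.intervalIntegrable _ _)]
  exact intervalIntegral.integral_mono_on hl.le (Continuous.intervalIntegrable (by fun_prop) _ _)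
    (hF.intervalIntegrable _ _) fun t ht => mul_le_of_le_one_right (h0 t ht.1 ht.2) (h.2.1 t).2

/-- the main term of the gain -/
noncomputable def GG (g : ℝ → ℝ) (l d : ℝ) (u : ℂ) : ℂ :=
  exp (l * u) * (u + d) * (2 * l - I0 g 0 - l * (u + d) * I0 g (u + d))

theorem gg_der (h : Wt g l) (hl : 0 < l) (d : ℝ) (u : ℂ) : HasDerivAt (GG g l d)
    ((exp (l * u) * (l * 1) * (u + d) + exp (l * u) * 1) *
      (2 * l - I0 g 0 - l * (u + d) * I0 g (u + d)) + exp (l * u) * (u + d) *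
      -(l * 1 * I0 g (u + d) + l * (u + d) *
        ((∫ t in (0 : ℝ)..l, exp (-(u + d) * t) * (-t) * g t) * 1))) u :=
  (((hasDerivAt_id u).const_mul (l : ℂ)).cexp.mul ((hasDerivAt_id u).add_const (d : ℂ))).mul
    (((((hasDerivAt_id u).add_const (d : ℂ)).const_mul (l : ℂ)).mul
      ((i_der h hl (u + d)).comp u ((hasDerivAt_id u).add_const (d : ℂ)))).const_sub _)

theorem gain (h : Wt g l) (hl : 0 < l) {d : ℝ} (d0 : 0 < d) {j : ℕ} (hj : j ≤ 1) :
    Real.exp (-(d * l)) * l * d ^ (1 - j) ≤ (iteratedDeriv j (GG g l d) 0).re := by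
  have hg := h.1
  have e0 : I0 g 0 = ((∫ t in (0 : ℝ)..l, 1 * g t : ℝ) : ℂ) := by
    rw [i_eq h hl]
    exact re_int _ _ fun t => by simp
  have e1 : I0 g d = ((∫ t in (0 : ℝ)..l, Real.exp (-d * t) * g t : ℝ) : ℂ) := by
    rw [i_eq h hl]
    exact re_int _ _ fun t => by push_cast; rfl
  have e2 : ∫ t in (0 : ℝ)..l, exp (-(d : ℂ) * t) * (-t) * g t =
      ((∫ t in (0 : ℝ)..l, Real.exp (-d * t) * (-t) * g t : ℝ) : ℂ) :=
    re_int _ _ fun t => by push_cast; rfl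
  have m1 := le_int h hl (F := fun _ => 1) (Φ := id) continuous_const (fun _ _ _ => zero_le_one)
    hasDerivAt_id
  have dl : 0 < d * l := by positivity
  simp only [id, sub_zero] at m1
  interval_cases j
  · have m2 := le_int h hl (F := fun t => d * Real.exp (-d * t)) (Φ := fun t => -Real.exp (-d * t))
      (by fun_prop) (fun _ _ _ => by positivity) fun t => by
        have := (((hasDerivAt_id t).const_mul (-d)).exp).neg
        refine this.congr_deriv ?_
        simp only [id]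
        ring
    simp only [mul_assoc, intervalIntegral.integral_const_mul, mul_zero, Real.exp_zero] at m2
    rw [iteratedDeriv_zero, GG, zero_add, e0, e1, mul_zero, exp_zero, one_mul]
    norm_cast
    rw [pow_one, ← neg_mul]
    nlinarith [mul_le_mul_of_nonneg_left m2 dl.le, mul_le_mul_of_nonneg_left m1 d0.le]
  · have m2 := le_int h hl (F := fun t => d * Real.exp (-d * t) * (2 + d * (l - t)))
      (Φ := fun t => -Real.exp (-d * t) * (1 + d * (l - t))) (by fun_prop)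
      (fun t _ h1 => by have := sub_nonneg.2 h1; positivity) fun t => by
        have := (((hasDerivAt_id t).const_mul (-d)).exp).neg.mul
          ((((hasDerivAt_id t).const_sub l).const_mul d).const_add 1)
        refine this.congr_deriv ?_
        simp only [id, Pi.neg_apply]
        ring
    have m3 : ∫ t in (0 : ℝ)..l, d * Real.exp (-d * t) * (2 + d * (l - t)) * g t =
        d * (2 + d * l) * (∫ t in (0 : ℝ)..l, Real.exp (-d * t) * g t) +
          d ^ 2 * ∫ t in (0 : ℝ)..l, Real.exp (-d * t) * (-t) * g t := by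
      rw [← intervalIntegral.integral_const_mul, ← intervalIntegral.integral_const_mul,
        ← intervalIntegral.integral_add (Continuous.intervalIntegrable (by fun_prop) _ _)
          (Continuous.intervalIntegrable (by fun_prop) _ _)]
      exact intervalIntegral.integral_congr fun t _ => by ring
    rw [m3] at m2
    simp only [sub_self, mul_zero, Real.exp_zero, sub_zero, add_zero, mul_one] at m2
    rw [iteratedDeriv_one, (gg_der h hl d 0).deriv, zero_add, e0, e1, e2, mul_zero, exp_zero]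
    norm_cast
    rw [pow_zero, ← neg_mul, Nat.cast_mul, Nat.cast_one]
    nlinarith [mul_le_mul_of_nonneg_left m2 hl.le, mul_le_mul_of_nonneg_left m1 dl.le]

theorem e3 {w : ℂ} {k : ℕ} (h : ‖w‖ ≤ k) : ‖exp w‖ ≤ 3 ^ k := by
  refine (norm_exp_le_exp_norm _).trans ((Real.exp_le_exp.2 h).trans ?_)
  rw [← Real.exp_one_pow]
  exact pow_le_pow_left₀ (Real.exp_pos 1).le (Real.exp_one_lt_d9.le.trans (by norm_num)) k

theorem nl (hl : 0 < l) {u : ℂ} {k : ℝ} (h : ‖u‖ ≤ k / l) : ‖l * u‖ ≤ k := by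
  rw [norm_mul, norm_real, Real.norm_of_nonneg hl.le]
  rwa [le_div_iff₀' hl] at h

theorem it_sub {j : ℕ} (hj : j ≤ 1) {f f' : ℂ → ℂ} (a : ℂ) (h : DifferentiableAt ℂ f 0)
    (h' : DifferentiableAt ℂ f' 0) :
    iteratedDeriv j (fun u => a * f u - f' u) 0 = a * iteratedDeriv j f 0 - iteratedDeriv j f' 0 := by
  interval_cases j
  · simp only [iteratedDeriv_zero]
  · simp only [iteratedDeriv_one]
    exact ((h.hasDerivAt.const_mul a).sub h'.hasDerivAt).deriv

end CoreA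

open CoreA in
/-- from uniform approximations on a small disc to the two real inequalities -/
theorem core (B : ℝ) : ∃ ρ : ℝ, 0 < ρ ∧ ρ ≤ 1 ∧ ∀ (j : ℕ) (l d : ℝ) (g : ℝ → ℝ) (h₁ h₂ : ℂ → ℂ),
    j ≤ 1 → 0 < l → 0 < d → d * l ≤ B → Wt g l →
    (∀ u : ℂ, ‖u‖ ≤ 1 / (4 * l) → DifferentiableAt ℂ h₁ u ∧ DifferentiableAt ℂ h₂ u ∧
      (∃ φ a : ℂ, h₁ u = φ * exp (l * u) * (u + d) * a ∧ ‖φ - 1‖ ≤ ρ ∧ ‖a - 1‖ ≤ ρ) ∧
      ∃ φ₀ φ₁ φ₂ φ₃ a₀ a₁ : ℂ,
        h₂ u = φ₀ * exp (l * u) * (u + d) * ((l * (u + d) * φ₁ + φ₂) * a₀ + φ₃ * a₁) ∧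
        ‖φ₀ - 1‖ ≤ ρ ∧ ‖φ₁ - 1‖ ≤ ρ ∧ ‖φ₂ - 1‖ ≤ ρ ∧ ‖φ₃ - 1‖ ≤ ρ ∧
        ‖a₀ - I0 g (u + d)‖ ≤ ρ * l ∧ ‖a₁ - (I0 g 0 - I0 g (u + d))‖ ≤ ρ * l) →
    |(iteratedDeriv j h₁ 0).re| ≤ 2 * (1 + 4 * B) * d ^ (1 - j) ∧
      Real.exp (-B) / 2 * l * d ^ (1 - j) ≤
        2 * l * (iteratedDeriv j h₁ 0).re - (iteratedDeriv j h₂ 0).re := by
  obtain ⟨W, hW⟩ : ∃ W, W = Real.exp (1 + |B|) := ⟨_, rfl⟩
  have W1 : 1 ≤ W := hW ▸ Real.one_le_exp (by positivity)
  obtain ⟨T, hT⟩ : ∃ T, T = 18 + 3 * (22 + 7 * |B|) * W := ⟨_, rfl⟩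
  have T1 : 18 ≤ T := hT ▸ le_add_of_nonneg_right (by positivity)
  obtain ⟨ρ, hρ⟩ : ∃ ρ, ρ = Real.exp (-|B|) / (2 * (1 + 4 * |B|) * T) := ⟨_, rfl⟩
  have r0 : 0 < ρ := hρ ▸ by positivity
  have r1 : ρ ≤ 1 / 9 := by
    rw [hρ, div_le_iff₀ (by positivity)]
    nlinarith [Real.exp_le_one_iff.2 (neg_nonpos.2 (abs_nonneg B)), abs_nonneg B]
  refine ⟨ρ, r0, by linarith, fun j l d g h₁ h₂ hj hl d0 hB hg H => ?_⟩
  have B0 : 0 ≤ B := le_trans (by positivity) hB
  rw [abs_of_nonneg B0] at hW hT hρ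
  have z0 : ‖(0 : ℂ)‖ ≤ 1 / (4 * l) := by simpa using hl.le
  have l4 : 1 / (4 * l) ≤ 1 / l := one_div_le_one_div_of_le hl (by linarith)
  have dM : ∀ u : ℂ, HasDerivAt (fun u : ℂ => exp (l * u) * (u + d))
      (exp (l * u) * (l * 1) * (u + d) + exp (l * u) * 1) u := fun u =>
    ((hasDerivAt_id u).const_mul (l : ℂ)).cexp.mul ((hasDerivAt_id u).add_const (d : ℂ))
  have q1 : ∀ u : ℂ, ‖u‖ ≤ 1 / (4 * l) → ‖exp (l * u)‖ ≤ 3 ^ 1 := fun u hu =>
    e3 (nl hl (by simpa using hu.trans l4))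
  have a1 : ∀ u : ℂ, ‖u‖ ≤ 1 / (4 * l) →
      ‖1 * h₁ u - exp (l * u) * (u + d)‖ ≤ 9 * ρ * ‖u + d‖ := by
    intro u hu
    obtain ⟨-, -, ⟨φ, a, e, p1, p2⟩, -⟩ := H u hu
    rw [e, show 1 * (φ * exp (l * u) * (u + d) * a) - exp (l * u) * (u + d) =
      exp (l * u) * ((φ - 1) * (a - 1) + (φ - 1) + (a - 1)) * (u + d) by ring, norm_mul, norm_mul]
    refine mul_le_mul_of_nonneg_right ?_ (norm_nonneg _)
    have q2 : ‖(φ - 1) * (a - 1) + (φ - 1) + (a - 1)‖ ≤ ρ * 1 + ρ + ρ :=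
      norm_add₃_le.trans (add_le_add_three ((norm_mul_le _ _).trans
        (mul_le_mul p1 (by linarith) (norm_nonneg _) r0.le)) p1 p2)
    exact (mul_le_mul (q1 u hu) q2 (norm_nonneg _) (by norm_num)).trans_eq (by ring)
  have a2 : ∀ u : ℂ, ‖u‖ ≤ 1 / (4 * l) → ‖h₂ u - exp (l * u) * (u + d) *
      (I0 g 0 + l * (u + d) * I0 g (u + d))‖ ≤ 3 * (22 + 7 * B) * W * ρ * l * ‖u + d‖ := by
    intro u hu
    obtain ⟨-, -, -, φ₀, φ₁, φ₂, φ₃, a₀, a₁, e, p0, p1, p2, p3, p4, p5⟩ := H u hu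
    have nc : ‖u + d‖ ≤ (1 + B) / l := by
      refine (norm_add_le _ _).trans ?_
      rw [norm_real, Real.norm_of_nonneg d0.le, add_div]
      exact add_le_add (hu.trans l4) ((le_div_iff₀ hl).2 hB)
    have i1 := i_le hg hl nc
    have i0 := i_le hg hl (c := 0) (R := (1 + B) / l) (by rw [norm_zero]; positivity)
    rw [div_mul_cancel₀ _ hl.ne', ← hW] at i1 i0
    have c1 := nl hl nc
    have s1 : ρ * l ≤ W * l := by gcongr; linarith
    have s2 : ρ * l ≤ ρ * l * W := le_mul_of_one_le_right (by positivity) W1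
    generalize I0 g (u + d) = P at *
    generalize I0 g 0 = m at *
    generalize u + (d : ℂ) = c at *
    have n0 : ‖a₀‖ ≤ 2 * W * l := by linarith [norm_sub_norm_le a₀ P]
    have n1 : ‖a₁‖ ≤ 3 * W * l := by linarith [norm_sub_norm_le a₁ (m - P), norm_sub_le m P]
    have n2 : ‖φ₀‖ ≤ 2 := by linarith [norm_sub_norm_le φ₀ 1, norm_one (α := ℂ)]
    have n3 : ‖l * c * (φ₁ - 1) + (φ₂ - 1)‖ ≤ (1 + B) * ρ + ρ := (norm_add_le _ _).trans
      (add_le_add ((norm_mul_le _ _).trans (mul_le_mul c1 p1 (norm_nonneg _) (by positivity))) p2)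
    have n4 : ‖l * c + 1‖ ≤ 1 + B + 1 := (norm_add_le _ _).trans (by rw [norm_one]; linarith)
    have n5 : ‖(l * c * (φ₁ - 1) + (φ₂ - 1)) * a₀ + (l * c + 1) * (a₀ - P) +
        ((φ₃ - 1) * a₁ + (a₁ - (m - P)))‖ ≤ ((1 + B) * ρ + ρ) * (2 * W * l) +
          (1 + B + 1) * (ρ * l * W) + (ρ * (3 * W * l) + ρ * l * W) :=
      norm_add₃_le.trans (add_le_add_three
        ((norm_mul_le _ _).trans (mul_le_mul n3 n0 (norm_nonneg _) (by positivity)))
        ((norm_mul_le _ _).trans (mul_le_mul n4 (p4.trans s2) (norm_nonneg _) (by positivity)))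
        ((norm_add_le _ _).trans (add_le_add ((norm_mul_le _ _).trans
          (mul_le_mul p3 n1 (norm_nonneg _) r0.le)) (p5.trans s2))))
    have n6 : ‖m + l * c * P‖ ≤ W * l + (1 + B) * (W * l) := (norm_add_le _ _).trans
      (add_le_add i0 ((norm_mul_le _ _).trans (mul_le_mul c1 i1 (norm_nonneg _) (by positivity))))
    have n7 := (norm_add_le _ _).trans (add_le_add
      ((norm_mul_le φ₀ _).trans (mul_le_mul n2 n5 (norm_nonneg _) zero_le_two))
      ((norm_mul_le (φ₀ - 1) _).trans (mul_le_mul p0 n6 (norm_nonneg _) r0.le)))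
    have n8 := mul_le_mul_of_nonneg_right (mul_le_mul (q1 u hu) n7 (norm_nonneg _) (by norm_num))
      (norm_nonneg c)
    rw [← norm_mul, ← norm_mul] at n8
    rw [e]
    exact (congrArg norm (by ring)).trans_le (n8.trans_eq (by ring))
  have b1 := cf (f := fun u => 1 * h₁ u - exp (l * u) * (u + d)) hj hl d0 hB (by positivity)
    (fun u hu => ((H u hu).1.const_mul 1).sub (dM u).differentiableAt) a1
  have b2 := cf (ρ := T * ρ * l) (f := fun u => 1 * (2 * l * h₁ u - h₂ u) - GG g l d u)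
    hj hl d0 hB (by positivity) (fun u hu => ((((H u hu).1.const_mul _).sub (H u hu).2.1).const_mul
      1).sub (gg_der hg hl d u).differentiableAt) fun u hu => by
      rw [show 1 * (2 * l * h₁ u - h₂ u) - GG g l d u =
        2 * l * (1 * h₁ u - exp (l * u) * (u + d)) - (h₂ u - exp (l * u) * (u + d) *
          (I0 g 0 + l * (u + d) * I0 g (u + d))) by rw [GG]; ring]
      refine (norm_sub_le _ _).trans ?_
      rw [norm_mul, show ‖2 * (l : ℂ)‖ = 2 * l by simp [hl.le]]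
      refine (add_le_add (mul_le_mul_of_nonneg_left (a1 u hu) (by positivity)) (a2 u hu)).trans_eq ?_
      rw [hT]
      ring
  rw [it_sub hj 1 (H 0 z0).1 (dM 0).differentiableAt, one_mul] at b1
  rw [it_sub (f := fun u => 2 * l * h₁ u - h₂ u) hj 1 (((H 0 z0).1.const_mul _).sub (H 0 z0).2.1)
    (gg_der hg hl d 0).differentiableAt, one_mul, it_sub hj _ (H 0 z0).1 (H 0 z0).2.1] at b2
  have dj : 0 < d ^ (1 - j) := by positivity
  constructor
  · have c1 : ‖iteratedDeriv j (fun u : ℂ => exp (l * u) * (u + d)) 0‖ ≤ (1 + B) * d ^ (1 - j) := by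
      interval_cases j
      · simp only [iteratedDeriv_zero, mul_zero, exp_zero, one_mul, zero_add, norm_real,
          Real.norm_of_nonneg d0.le, Nat.sub_zero, pow_one]
        nlinarith
      · rw [iteratedDeriv_one, (dM 0).deriv]
        simp only [mul_zero, exp_zero, one_mul, zero_add, mul_one]
        norm_cast
        rw [Real.norm_of_nonneg (by positivity), pow_zero]
        linarith
    refine (abs_re_le_norm _).trans ?_
    have c2 : 9 * ρ * (1 + 4 * B) * d ^ (1 - j) ≤ 1 * (1 + 4 * B) * d ^ (1 - j) := by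
      gcongr
      linarith
    linarith [norm_sub_norm_le (iteratedDeriv j h₁ 0)
      (iteratedDeriv j (fun u : ℂ => exp (l * u) * (u + d)) 0), mul_nonneg B0 dj.le]
  · have c1 := gain hg hl d0 hj
    have c2 := (abs_le.1 ((abs_re_le_norm _).trans b2)).1
    have c3 : T * ρ * l * (1 + 4 * B) * d ^ (1 - j) = Real.exp (-B) / 2 * l * d ^ (1 - j) := by
      rw [hρ]
      field_simp
    have c4 : Real.exp (-B) * l * d ^ (1 - j) ≤ Real.exp (-(d * l)) * l * d ^ (1 - j) := by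
      gcongr
    rw [c3, sub_re, sub_re, show (2 * (l : ℂ)) = ((2 * l : ℝ) : ℂ) by push_cast; rfl,
      re_ofReal_mul] at c2
    linarith

end Pool.Agent.MP_20b2fd_nt.H75
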