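import Pool.Agent.MP_20b2fd_nt.H75.SpecE
import Pool.Agent.MP_20b2fd_nt.H38.Xn

/-! The data for the second moment of the perturbation. -/

set_option autoImplicit false

namespace Pool.Agent.MP_20b2fd_nt.H75

open Complex Finset Filter
open Pool.Agent.MP_20b2fd_nt.H38 Pool.Agent.MP_20b2fd_nt.H39 Pool.Agent.MP_20b2fd_nt.F5
open Pool.Agent.MP_c5bf7b_nt.H38 (Ch)
open DirichletCharacter (LFunction)

namespace YE

theorem fam {R : Type} [CommSemiring R] (M : ℕ) (x T : ℕ → R) :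
    ∑ k ∈ Icc 1 M, ∑ l ∈ Icc 1 M, x k * x l * Bh T k l =
      ∑ i ∈ (Icc 1 M ×ˢ Icc 1 M).sigma fun y => (y.1.gcd y.2).divisors,
        x i.1.1 * x i.1.2 * i.2 * T (i.1.1 * i.1.2 / i.2 ^ 2) := by
  rw [sum_sigma, sum_product]
  simp only [Bh, mul_sum, mul_assoc]

theorem mem {M : ℕ} {i : (_ : ℕ × ℕ) × ℕ}
    (h : i ∈ (Icc 1 M ×ˢ Icc 1 M).sigma fun y => (y.1.gcd y.2).divisors) :
    1 ≤ i.1.1 * i.1.2 / i.2 ^ 2 ∧ i.1.1 * i.1.2 / i.2 ^ 2 ≤ M ^ 2 := by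
  obtain ⟨h1, hd⟩ := mem_sigma.1 h
  obtain ⟨h1, h2⟩ := mem_product.1 h1
  rw [mem_Icc] at h1 h2
  have h3 := Nat.dvd_of_mem_divisors hd
  have h4 : i.2 ^ 2 ∣ i.1.1 * i.1.2 := by
    rw [sq]
    exact mul_dvd_mul (h3.trans (Nat.gcd_dvd_left _ _)) (h3.trans (Nat.gcd_dvd_right _ _))
  exact ⟨Nat.div_pos (Nat.le_of_dvd (Nat.mul_pos h1.1 h2.1) h4)
    (pow_pos (Nat.pos_of_mem_divisors hd) 2),
    (Nat.div_le_self _ _).trans (sq M ▸ Nat.mul_le_mul h1.2 h2.2)⟩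

theorem size (M : ℕ) {x : ℕ → ℝ} (h : ∀ k, |x k| ≤ 3) :
    ∑ i ∈ (Icc 1 M ×ˢ Icc 1 M).sigma fun y => (y.1.gcd y.2).divisors,
      ‖((x i.1.1 * x i.1.2 * i.2 : ℝ) : ℂ)‖ ≤ 9 * (M : ℝ) ^ 4 := by
  rw [sum_sigma]
  refine (sum_le_card_nsmul _ _ (9 * (M : ℝ) ^ 2) fun y hy => ?_).trans_eq (by simp; ring)
  have g : y.1.gcd y.2 ≤ M := by
    obtain ⟨h1, -⟩ := mem_product.1 hy
    exact (Nat.gcd_le_left _ (mem_Icc.1 h1).1).trans (mem_Icc.1 h1).2
  refine (sum_le_card_nsmul _ _ (3 * 3 * (M : ℝ)) fun d hd => ?_).trans ?_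
  · rw [norm_real, Real.norm_eq_abs, abs_mul, abs_mul, Nat.abs_cast]
    have : (d : ℝ) ≤ M := by exact_mod_cast (Nat.divisor_le hd).trans g
    have := h y.1
    have := h y.2
    gcongr
  · have : ((y.1.gcd y.2).divisors.card : ℝ) ≤ M := by
      exact_mod_cast (Nat.card_divisors_le_self _).trans g
    rw [nsmul_eq_mul]
    exact (mul_le_mul_of_nonneg_right this (by positivity)).trans_eq (by ring)

end YE

open YE in
theorem yOf : YOf := by
  rintro ⟨Cb, A, b1, hB⟩ ⟨-, -, cE, -, hF⟩ hY C₀ c C c0 c1 C1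
  have b3 : 1 ≤ Cb ^ 3 := one_le_pow₀ b1
  obtain ⟨C', C1', hY⟩ := hY c C (Cb ^ 3) C1 b3
  obtain ⟨G, hG⟩ : ∃ G, G = 4 + |C₀| := ⟨_, rfl⟩
  have G1 : 1 ≤ G := by linarith [abs_nonneg C₀]
  refine ⟨16 * C' * G ^ 4, min (c / 4) (1 / (4 * C)), ?_, by positivity, fun θ θ0 => ?_⟩
  · nlinarith [mul_le_mul C1' (one_le_pow₀ G1 : 1 ≤ G ^ 4) zero_le_one (by linarith)]
  obtain ⟨N₀, h0⟩ := eventually_atTop.1 ((XnA.ev 9 (s := 2 * θ) (by positivity)).and
    ((Real.tendsto_log_atTop.comp tendsto_natCast_atTop_atTop).eventually_ge_atTop 200))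
  refine ⟨N₀ + 1, fun N D _ χ β z F Λ ρ j hN hρ st hM => ?_⟩
  obtain ⟨n9, nL⟩ := h0 N (by omega)
  replace nL : 200 ≤ Real.log N := nL
  have N0 : (0 : ℝ) < N := by exact_mod_cast (by omega : 0 < N)
  obtain ⟨L, hL⟩ : ∃ L, L = Real.log N := ⟨_, rfl⟩
  obtain ⟨r1, r2⟩ := le_min_iff.1 hρ
  have z5 := st.z5
  have r0 : 0 < ρ := (mul_pos_iff_of_pos_right (by linarith : 0 < z)).1 (by linarith [st.zr])
  have lz : 0 < Real.log z := Real.log_pos (by linarith)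
  have Λ0 : 0 < Λ := (mul_pos_iff_of_pos_left r0).1 (lz.trans_le st.zL)
  have zL : Real.log z ≤ ρ * L := st.zL.trans (mul_le_mul_of_nonneg_left (hL ▸ st.LN) r0.le)
  have zΛ : Real.log z ≤ Λ := st.zL.trans (mul_le_of_le_one_left Λ0.le (by linarith))
  have b0 := st.b0
  rw [← hL] at nL b0
  have L0 : 0 < L := by linarith
  have sm : ∀ (t : ℝ) (w : ℂ), ‖w‖ ≤ t / L → ‖w‖ * Real.log z ≤ t * ρ := fun t w h => by
    have t0 : 0 ≤ t / L := (norm_nonneg w).trans h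
    refine (mul_le_mul h zL lz.le t0).trans_eq ?_
    field_simp
  obtain ⟨F0, lo, -⟩ := st.lo
  have D0 : (0 : ℝ) < D := by exact_mod_cast NeZero.pos D
  have φ0 : (0 : ℝ) < D.totient / D :=
    div_pos (by exact_mod_cast Nat.totient_pos.2 (NeZero.pos D)) D0
  have M0 : (0 : ℝ) ≤ Mz Λ := Nat.cast_nonneg _
  refine ⟨_, (Icc 1 (Mz Λ) ×ˢ Icc 1 (Mz Λ)).sigma fun y => (y.1.gcd y.2).divisors,
    fun i => nu χ z Λ i.1.1 * nu χ z Λ i.1.2 * i.2, fun i => i.1.1 * i.1.2 / i.2 ^ 2, 2 * F * G,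
    C' * E0 χ z ^ 2 / (F ^ 2 * (D.totient / D)), ⟨fun i hi => ⟨(mem hi).1, ?_⟩, ?_,
      fun w hw => ?_, fun u v w hu hv hw => ?_⟩, fun T => fam _ _ T, ?_⟩
  · calc _ ≤ (Mz Λ : ℝ) ^ 2 := by exact_mod_cast (mem hi).2
      _ ≤ ((N : ℝ) ^ θ) ^ 2 := by gcongr
      _ = _ := by rw [← Real.rpow_natCast, ← Real.rpow_mul N0.le, mul_comm]; norm_num
  · calc _ ≤ 9 * (Mz Λ : ℝ) ^ 4 := size _ ((hF D χ z st.sq z5).2.2 Λ)
      _ ≤ (N : ℝ) ^ (2 * θ) * ((N : ℝ) ^ θ) ^ 4 := by gcongr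
      _ = _ := by
        rw [← Real.rpow_natCast, ← Real.rpow_mul N0.le, ← Real.rpow_add N0]
        congr 1
        push_cast
        ring
  · rw [← hL] at hw ⊢
    have a1 := sm 4 w hw
    have a2 := lo (1 + w) (by rw [add_sub_cancel_left]; linarith)
    rw [add_sub_cancel_left] at a2
    have a3 : ‖1 + w - β‖ ≤ G / L := by
      rw [show 1 + w - β = w + ((1 - β : ℝ) : ℂ) by push_cast; ring, hG, add_div]
      refine (norm_add_le _ _).trans (add_le_add hw ?_)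
      rw [norm_real, Real.norm_of_nonneg (by linarith [st.b1]), le_div_iff₀ L0]
      exact b0.trans (le_abs_self _)
    have a4 : C * (‖w‖ * Real.log z) ≤ 1 := by
      rw [le_div_iff₀ (by positivity)] at r2
      nlinarith
    have a5 := norm_le_norm_add_norm_sub' (LFunction χ (1 + w)) ((1 + w - β) * F)
    rw [norm_mul, norm_real, Real.norm_of_nonneg F0.le] at a5
    have a6 : C * (‖w‖ * Real.log z) * ‖1 + w - β‖ * F ≤ 1 * (G / L) * F := by gcongr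
    have a7 := mul_le_mul_of_nonneg_right a3 F0.le
    rw [show 2 * F * G / L = G / L * F + 1 * (G / L) * F by ring]
    linarith
  · rw [← hL] at hu hv hw
    have s1 : 2 / L ≤ 1 / 100 := by
      rw [div_le_div_iff₀ L0 (by norm_num)]
      linarith
    obtain ⟨k1, -, -, k4⟩ := hB D χ u w (hu.trans s1) (hw.trans s1)
    obtain ⟨k1, k2, k3⟩ := k1 v
    have key := hY D χ β z F Λ w w u v (Bf χ u v w) st.sq st.lo z5 st.zD zΛ
      (by linarith [sm 2 w hw]) (by linarith [sm 2 w hw]) (by linarith [sm 2 u hu])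
      (by linarith [sm 2 v hv]) ⟨k1, k2⟩ fun p hp pz => by
        have lp : Real.log p ≤ L := (Real.log_le_log (by exact_mod_cast hp.pos) pz).trans
          (zL.trans (mul_le_of_le_one_left L0.le (by linarith)))
        obtain ⟨q1, q2⟩ := k4 v p (2 / L) hp hu hv hw s1 (by
          rw [div_mul_eq_mul_div, div_le_iff₀ L0]
          linarith)
        have q3 := k3 p 1 hp le_rfl
        rw [pow_one] at q3
        rw [q3, k3 p 2 hp one_le_two, ← two_mul]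
        exact ⟨q1.trans (div_le_div_of_nonneg_right (le_self_pow₀ b1 (by norm_num))
          (Nat.cast_nonneg _)), q2 2⟩
    rw [fam] at key
    rw [le_div_iff₀' (by positivity)]
    simpa only [ofReal_mul, ofReal_natCast] using key
  · have e1 : ‖LFunction χ 1‖ = (1 - β) * F := by
      have a := lo 1 (by simpa using c0.le)
      simp only [sub_self, norm_zero, zero_mul, mul_zero, norm_le_zero_iff, sub_eq_zero] at a
      rw [a, show (1 : ℂ) - β = ((1 - β : ℝ) : ℂ) by push_cast; ring, ← ofReal_mul, norm_real,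
        Real.norm_of_nonneg (mul_nonneg (by linarith [st.b1]) F0.le)]
    have e2 : (D.totient / D : ℝ) * (C' * E0 χ z ^ 2 / (F ^ 2 * (D.totient / D))) *
        (2 * F * G) ^ 2 = 4 * C' * G ^ 2 * E0 χ z ^ 2 := by
      generalize (D.totient / D : ℝ) = t at φ0
      field_simp
      ring
    rw [e2, e1, y0]
    rcases Nat.le_one_iff_eq_zero_or_eq_one.1 st.hj with rfl | rfl
    · rw [if_pos rfl]
      have : 4 * C' * G ^ 2 ≤ 16 * C' * G ^ 4 := by
        gcongr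
        · norm_num
        · norm_num
      calc _ = 4 * C' * G ^ 2 * (F * E0 χ z * (1 - β) ^ (1 - 0)) ^ 2 := by ring
        _ ≤ _ := by gcongr
    · rw [if_neg one_ne_zero]
      exact le_of_eq (by ring)

end Pool.Agent.MP_20b2fd_nt.H75
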